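import Pool.Agent.H99.GC.Defs

/-!
# [H99 GC KAP]  the inequality with the nonnegative weight

PROOF. `a = 1/√N`, `0 ≤ ∑ (κ + s e)(1 + s a g)^2 = κ ∑ (1+sag)^2 + s ∑ e + 2 a ∑ e g + s a^2 ∑ e g^2`, `(1+sag)^2 ≤ 2 + 2 a^2 g^2`,
`g^2 = ∑_q f_q^2 + 2 ∑_{q<r} f_q f_r`, `f_q^2 ≤ 1`. Multiply by `N`. (`N = 0`: everything is `0 ≤ ..`.)
-/

set_option autoImplicit false

namespace Pool.Agent.H99.GC

open Finset

theorem sq_sum_lt (Q : Finset ℕ) (u : ℕ → ℝ) :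
    (∑ q ∈ Q, u q) ^ 2 = ∑ q ∈ Q, u q ^ 2 + 2 * ∑ q ∈ Q, ∑ r ∈ Q, (if q < r then u q * u r else 0) := by
  have h1 : ∀ q r : ℕ, u q * u r = (if q < r then u q * u r else 0) + (if r < q then u r * u q else 0) +
      (if q = r then u q * u r else 0) := by
    intro q r
    rcases lt_trichotomy q r with h | h | h
    · rw [if_pos h, if_neg (not_lt.2 h.le), if_neg h.ne]
      ring
    · rw [if_neg (by omega), if_neg (by omega), if_pos h]
      ring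
    · rw [if_neg (not_lt.2 h.le), if_pos h, if_neg h.ne']
      ring
  have h2 : ∑ q ∈ Q, ∑ r ∈ Q, (if r < q then u r * u q else 0) =
      ∑ q ∈ Q, ∑ r ∈ Q, (if q < r then u q * u r else 0) := Finset.sum_comm
  have h3 : ∑ q ∈ Q, ∑ r ∈ Q, (if q = r then u q * u r else 0) = ∑ q ∈ Q, u q ^ 2 := by
    refine Finset.sum_congr rfl fun q hq => ?_
    rw [Finset.sum_ite_eq, if_pos hq]
    ring
  rw [sq, Finset.sum_mul_sum, Finset.sum_congr rfl fun q _ => Finset.sum_congr rfl fun r _ => h1 q r]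
  simp only [Finset.sum_add_distrib]
  rw [h2, h3]
  ring

theorem kap (S Q : Finset ℕ) (f : ℕ → ℕ → ℝ) (e : ℕ → ℝ) (s κ : ℝ) (hs : s = 1 ∨ s = -1) (hκ : 0 ≤ κ)
    (hf : ∀ q ∈ Q, ∀ x ∈ S, |f q x| ≤ 1) (he : ∀ x ∈ S, -κ ≤ s * e x) :
    2 * Real.sqrt (Q.card : ℝ) * (-∑ x ∈ S, (∑ q ∈ Q, f q x) * e x) ≤
      κ * (2 * (Q.card : ℝ) * (S.card : ℝ) + 2 * ∑ x ∈ S, (∑ q ∈ Q, f q x) ^ 2) +
        2 * (Q.card : ℝ) * ∑ x ∈ S, |e x| +
        2 * ∑ q ∈ Q, ∑ r ∈ Q, (if q < r then |∑ x ∈ S, f q x * f r x * e x| else 0) := by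
  have hss : s * s = 1 := by rcases hs with rfl | rfl <;> norm_num
  have hsa : |s| = 1 := by rcases hs with rfl | rfl <;> norm_num
  obtain ⟨g, hg⟩ : ∃ g : ℕ → ℝ, ∀ x, g x = ∑ q ∈ Q, f q x := ⟨_, fun x => rfl⟩
  obtain ⟨D, hD⟩ : ∃ D : ℝ, D = ∑ q ∈ Q, ∑ r ∈ Q, (if q < r then |∑ x ∈ S, f q x * f r x * e x| else 0) := ⟨_, rfl⟩
  have hD0 : 0 ≤ D := by
    rw [hD]
    refine Finset.sum_nonneg fun q _ => Finset.sum_nonneg fun r _ => ?_
    split_ifs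
    · exact abs_nonneg _
    · exact le_rfl
  have hA0 : 0 ≤ ∑ x ∈ S, |e x| := Finset.sum_nonneg fun x _ => abs_nonneg _
  rw [← hD]
  simp only [← hg]
  have hG0 : 0 ≤ ∑ x ∈ S, g x ^ 2 := Finset.sum_nonneg fun x _ => sq_nonneg _
  rcases Nat.eq_zero_or_pos Q.card with hN | hN
  · rw [hN, Nat.cast_zero, Real.sqrt_zero]
    have h1 : 0 ≤ κ * (2 * (0 : ℝ) * (S.card : ℝ) + 2 * ∑ x ∈ S, g x ^ 2) := mul_nonneg hκ (by linarith)
    nlinarith [h1]
  -- the second order term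
  have hS2 : |∑ x ∈ S, g x ^ 2 * e x| ≤ (Q.card : ℝ) * ∑ x ∈ S, |e x| + 2 * D := by
    have h1 : ∑ x ∈ S, g x ^ 2 * e x = ∑ x ∈ S, (∑ q ∈ Q, f q x ^ 2) * e x +
        2 * ∑ q ∈ Q, ∑ r ∈ Q, (if q < r then ∑ x ∈ S, f q x * f r x * e x else 0) := by
      have h2 : ∀ x, g x ^ 2 * e x = (∑ q ∈ Q, f q x ^ 2) * e x +
          2 * ∑ q ∈ Q, ∑ r ∈ Q, (if q < r then f q x * f r x * e x else 0) := by
        intro x
        have h9 : (∑ q ∈ Q, ∑ r ∈ Q, (if q < r then f q x * f r x else 0)) * e x =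
            ∑ q ∈ Q, ∑ r ∈ Q, (if q < r then f q x * f r x * e x else 0) := by
          rw [Finset.sum_mul]
          refine Finset.sum_congr rfl fun q _ => ?_
          rw [Finset.sum_mul]
          refine Finset.sum_congr rfl fun r _ => ?_
          split_ifs
          · rfl
          · rw [zero_mul]
        rw [hg, sq_sum_lt, add_mul, mul_assoc, h9]
      rw [Finset.sum_congr rfl fun x _ => h2 x, Finset.sum_add_distrib, ← Finset.mul_sum]
      congr 2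
      rw [Finset.sum_comm]
      refine Finset.sum_congr rfl fun q _ => ?_
      rw [Finset.sum_comm]
      refine Finset.sum_congr rfl fun r _ => ?_
      split_ifs
      · rfl
      · simp
    have h3 : |∑ x ∈ S, (∑ q ∈ Q, f q x ^ 2) * e x| ≤ (Q.card : ℝ) * ∑ x ∈ S, |e x| := by
      refine (Finset.abs_sum_le_sum_abs _ _).trans ?_
      rw [Finset.mul_sum]
      refine Finset.sum_le_sum fun x hx => ?_
      rw [abs_mul]
      refine mul_le_mul_of_nonneg_right ?_ (abs_nonneg _)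
      rw [abs_of_nonneg (Finset.sum_nonneg fun q _ => sq_nonneg _)]
      have h4 : ∑ q ∈ Q, f q x ^ 2 ≤ ∑ q ∈ Q, (1 : ℝ) := by
        refine Finset.sum_le_sum fun q hq => ?_
        rw [sq_le_one_iff_abs_le_one]
        exact hf q hq x hx
      rwa [Finset.sum_const, nsmul_eq_mul, mul_one] at h4
    have h5 : |∑ q ∈ Q, ∑ r ∈ Q, (if q < r then ∑ x ∈ S, f q x * f r x * e x else 0)| ≤ D := by
      rw [hD]
      refine (Finset.abs_sum_le_sum_abs _ _).trans (Finset.sum_le_sum fun q _ => ?_)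
      refine (Finset.abs_sum_le_sum_abs _ _).trans (Finset.sum_le_sum fun r _ => ?_)
      split_ifs
      · exact le_rfl
      · rw [abs_zero]
    rw [h1]
    refine (abs_add_le _ _).trans (add_le_add h3 ?_)
    rw [abs_mul, abs_of_nonneg (by norm_num : (0 : ℝ) ≤ 2)]
    linarith
  obtain ⟨N, hNd⟩ : ∃ N : ℝ, N = (Q.card : ℝ) := ⟨_, rfl⟩
  have hN0 : 0 < N := by rw [hNd]; exact_mod_cast hN
  rw [← hNd] at hS2 ⊢
  have hr0 : 0 < Real.sqrt N := Real.sqrt_pos.2 hN0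
  have hr2 : Real.sqrt N * Real.sqrt N = N := Real.mul_self_sqrt hN0.le
  -- `0 ≤ ∑ (κ + s e) (√N + s g)²`
  have hmain : 0 ≤ ∑ x ∈ S, (κ + s * e x) * (Real.sqrt N + s * g x) ^ 2 :=
    Finset.sum_nonneg fun x hx => mul_nonneg (by linarith [he x hx]) (sq_nonneg _)
  have hexp : ∑ x ∈ S, (κ + s * e x) * (Real.sqrt N + s * g x) ^ 2 =
      κ * ∑ x ∈ S, (Real.sqrt N + s * g x) ^ 2 + s * N * ∑ x ∈ S, e x +
        2 * Real.sqrt N * ∑ x ∈ S, g x * e x + s * ∑ x ∈ S, g x ^ 2 * e x := by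
    rw [Finset.mul_sum, Finset.mul_sum, Finset.mul_sum, Finset.mul_sum, ← Finset.sum_add_distrib,
      ← Finset.sum_add_distrib, ← Finset.sum_add_distrib]
    refine Finset.sum_congr rfl fun x _ => ?_
    linear_combination (s * e x) * hr2 + (2 * Real.sqrt N * g x * e x + s * g x ^ 2 * e x) * hss
  have h1 : ∑ x ∈ S, (Real.sqrt N + s * g x) ^ 2 ≤ 2 * N * (S.card : ℝ) + 2 * ∑ x ∈ S, g x ^ 2 := by
    have h2 : ∀ x ∈ S, (Real.sqrt N + s * g x) ^ 2 ≤ 2 * N + 2 * g x ^ 2 := by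
      intro x _
      nlinarith [sq_nonneg (Real.sqrt N - s * g x), hr2, hss, mul_self_nonneg (g x)]
    refine (Finset.sum_le_sum h2).trans (le_of_eq ?_)
    rw [Finset.sum_add_distrib, Finset.sum_const, nsmul_eq_mul, Finset.mul_sum]
    ring
  have h2 : s * N * ∑ x ∈ S, e x ≤ N * ∑ x ∈ S, |e x| := by
    have h3 : s * ∑ x ∈ S, e x ≤ ∑ x ∈ S, |e x| := by
      refine (le_abs_self _).trans ?_
      rw [abs_mul, hsa, one_mul]
      exact Finset.abs_sum_le_sum_abs _ _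
    calc s * N * ∑ x ∈ S, e x = N * (s * ∑ x ∈ S, e x) := by ring
      _ ≤ N * ∑ x ∈ S, |e x| := mul_le_mul_of_nonneg_left h3 hN0.le
  have h3 : s * ∑ x ∈ S, g x ^ 2 * e x ≤ N * ∑ x ∈ S, |e x| + 2 * D := by
    refine ((le_abs_self _).trans ?_)
    rw [abs_mul, hsa, one_mul]
    exact hS2
  have h4 := mul_le_mul_of_nonneg_left h1 hκ
  rw [hexp] at hmain
  nlinarith [hmain, h2, h3, h4]

end Pool.Agent.H99.GC
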