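import Pool.Agent.H99.GC.Defs
import Pool.Agent.H67.VU.Th
import Pool.Agent.H67.VS.CharB

/-!
# [H99 GC PD]  products of characters modulo two primes

PROOF. `(q, r, χ, ψ)`, `q < r` primes in `(R, 2R]`, `χ, ψ ≠ 1`, is sent to `changeLevel χ * changeLevel ψ` modulo `q r ≤ 4R^2`. It is
primitive: its conductor divides `q r`; if it divides `q` (or `r`), take `n ≡ 1 mod q`, `n` arbitrary modulo `r`: `ψ(n) = 1`, so `ψ = 1`.
Injective: `q r` determines `q < r`; take `n ≡ 1 mod r`: the product determines `χ`. Values: `χ(n) ψ(n)` (both sides vanish when `n` is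
not prime to `q r`). So the sum of all `SD` is at most the sum of `‖ThC‖` over `PC (4R^2)`; `th_mean` with `4R^2`, `t = X`, `T = 2X`.
-/

set_option autoImplicit false

namespace Pool.Agent.H99.GC

open Finset Pool.Agent.H67.VS Pool.Agent.H99.GB Pool.Agent.H67.VU Pool.Agent.H21.MT

/-- the product of two characters -/
private noncomputable def prodCh {q1 q2 : ℕ} (χ1 : DirichletCharacter ℂ q1) (χ2 : DirichletCharacter ℂ q2) :
    DirichletCharacter ℂ (q1 * q2) :=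
  DirichletCharacter.changeLevel (dvd_mul_right q1 q2) χ1 *
    DirichletCharacter.changeLevel (dvd_mul_left q2 q1) χ2

private theorem cond_prime {q : ℕ} (hq : q.Prime) (χ : DirichletCharacter ℂ q) (hχ : χ ≠ 1) :
    χ.conductor = q := by
  have : NeZero q := ⟨hq.ne_zero⟩
  rcases (Nat.dvd_prime hq).1 (DirichletCharacter.conductor_dvd_level χ) with h | h
  · exact absurd ((DirichletCharacter.eq_one_iff_conductor_eq_one).2 h) hχ
  · exact h

private theorem prodCh_prim {q1 q2 : ℕ} (h1 : q1.Prime) (h2 : q2.Prime) (hne : q1 ≠ q2)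
    (χ1 : DirichletCharacter ℂ q1) (χ2 : DirichletCharacter ℂ q2) (hχ1 : χ1 ≠ 1) (hχ2 : χ2 ≠ 1) :
    (prodCh χ1 χ2).IsPrimitive := by
  have : NeZero (q1 * q2) := ⟨Nat.mul_ne_zero h1.ne_zero h2.ne_zero⟩
  have hco : Nat.Coprime q1 q2 := (Nat.coprime_primes h1 h2).2 hne
  set a := DirichletCharacter.changeLevel (dvd_mul_right q1 q2) χ1 with ha
  set b := DirichletCharacter.changeLevel (dvd_mul_left q2 q1) χ2 with hb
  have ca : a.conductor = q1 := by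
    rw [ha, DirichletCharacter.conductor_changeLevel, cond_prime h1 χ1 hχ1]
  have cb : b.conductor = q2 := by
    rw [hb, DirichletCharacter.conductor_changeLevel, cond_prime h2 χ2 hχ2]
  rw [DirichletCharacter.isPrimitive_def]
  show (a * b).conductor = q1 * q2
  set c := (a * b).conductor with hc
  have d1 : q1 ∣ c := by
    have e1 : a = (a * b) * b⁻¹ := by rw [mul_assoc, mul_inv_cancel, mul_one]
    have e2 := DirichletCharacter.conductor_mul_dvd_lcm_conductor (a * b) b⁻¹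
    rw [← e1, ca, DirichletCharacter.conductor_inv, cb] at e2
    have e3 : q1 ∣ c * q2 := e2.trans (Nat.lcm_dvd_mul _ _)
    exact hco.dvd_of_dvd_mul_right e3
  have d2 : q2 ∣ c := by
    have e1 : b = (a * b) * a⁻¹ := by rw [mul_comm a b, mul_assoc, mul_inv_cancel, mul_one]
    have e2 := DirichletCharacter.conductor_mul_dvd_lcm_conductor (a * b) a⁻¹
    rw [← e1, cb, DirichletCharacter.conductor_inv, ca] at e2
    have e3 : q2 ∣ c * q1 := e2.trans (Nat.lcm_dvd_mul _ _)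
    exact hco.symm.dvd_of_dvd_mul_right e3
  exact Nat.dvd_antisymm (DirichletCharacter.conductor_dvd_level _) (hco.mul_dvd_of_dvd_of_dvd d1 d2)

private theorem grp {G : Type} [CommGroup G] {a b c d : G} (h : a * b = c * d) : a * c⁻¹ = d * b⁻¹ := by
  rw [mul_inv_eq_iff_eq_mul, mul_assoc, mul_comm b⁻¹ c, ← mul_assoc, eq_mul_inv_iff_mul_eq, h, mul_comm c d]

private theorem prodCh_inj {q1 q2 : ℕ} (h1 : q1.Prime) (h2 : q2.Prime) (hne : q1 ≠ q2)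
    (χ1 ψ1 : DirichletCharacter ℂ q1) (χ2 ψ2 : DirichletCharacter ℂ q2)
    (h : prodCh χ1 χ2 = prodCh ψ1 ψ2) : χ1 = ψ1 ∧ χ2 = ψ2 := by
  have : NeZero (q1 * q2) := ⟨Nat.mul_ne_zero h1.ne_zero h2.ne_zero⟩
  have : NeZero q1 := ⟨h1.ne_zero⟩
  have : NeZero q2 := ⟨h2.ne_zero⟩
  have hco : Nat.Coprime q1 q2 := (Nat.coprime_primes h1 h2).2 hne
  unfold prodCh at h
  have e1 : DirichletCharacter.changeLevel (dvd_mul_right q1 q2) (χ1 * ψ1⁻¹) =
      DirichletCharacter.changeLevel (dvd_mul_left q2 q1) (ψ2 * χ2⁻¹) := by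
    rw [map_mul, map_mul, map_inv, map_inv]
    exact grp h
  have c1 : (χ1 * ψ1⁻¹).conductor = (ψ2 * χ2⁻¹).conductor := by
    rw [← DirichletCharacter.conductor_changeLevel (dvd_mul_right q1 q2) (χ := χ1 * ψ1⁻¹), e1,
      DirichletCharacter.conductor_changeLevel]
  have d1 : (χ1 * ψ1⁻¹).conductor ∣ q1 := DirichletCharacter.conductor_dvd_level _
  have d2 : (χ1 * ψ1⁻¹).conductor ∣ q2 := by
    rw [c1]; exact DirichletCharacter.conductor_dvd_level _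
  have d3 : (χ1 * ψ1⁻¹).conductor = 1 := Nat.eq_one_of_dvd_coprimes hco d1 d2
  have d4 : χ1 * ψ1⁻¹ = 1 := (DirichletCharacter.eq_one_iff_conductor_eq_one).2 d3
  have d5 : ψ2 * χ2⁻¹ = 1 := (DirichletCharacter.eq_one_iff_conductor_eq_one).2 (by rw [← c1]; exact d3)
  exact ⟨mul_inv_eq_one.1 d4, (mul_inv_eq_one.1 d5).symm⟩

private theorem prodCh_apply {q1 q2 : ℕ} (χ1 : DirichletCharacter ℂ q1) (χ2 : DirichletCharacter ℂ q2)
    (n : ℕ) : prodCh χ1 χ2 (n : ZMod (q1 * q2)) = χ1 (n : ZMod q1) * χ2 (n : ZMod q2) := by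
  unfold prodCh
  rw [MulChar.mul_apply]
  by_cases hn : n.Coprime (q1 * q2)
  · rw [charb_lift _ _ n hn, charb_lift _ _ n hn]
  · rw [charb_lift_zero _ _ n hn, zero_mul]
    have h : ¬ n.Coprime q1 ∨ ¬ n.Coprime q2 := by
      by_contra h
      push Not at h
      exact hn (Nat.Coprime.mul_right h.1 h.2)
    rcases h with h | h
    · rw [MulChar.map_nonunit χ1 (by rw [ZMod.isUnit_iff_coprime]; exact h), zero_mul]
    · rw [MulChar.map_nonunit χ2 (by rw [ZMod.isUnit_iff_coprime]; exact h), mul_zero]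

/-- the primitive characters of one modulus -/
private noncomputable def PF (X N : ℕ) : ℝ := by
  classical
  exact ∑ χ ∈ (univ : Finset (DirichletCharacter ℂ N)).filter (fun χ => χ.IsPrimitive),
    ‖ThC X (2 * X) onef χ‖

private theorem pf_PC (X R : ℕ) (T : Finset ℕ) (hT : ∀ N ∈ T, 2 ≤ N ∧ N ≤ R) :
    ∑ N ∈ T, PF X N ≤ ∑ c ∈ PC R, ‖ThC X (2 * X) onef c.2‖ := by
  classical
  set s : Finset (Fin R) := univ.filter (fun r => r.val + 1 ∈ T) with hs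
  have h1 : ∑ N ∈ T, PF X N = ∑ r ∈ s, PF X (r.val + 1) := by
    symm
    refine Finset.sum_bij (fun r _ => r.val + 1) ?_ ?_ ?_ (fun _ _ => rfl)
    · intro r hr
      rw [hs, mem_filter] at hr
      exact hr.2
    · intro a _ b _ hab
      apply Fin.ext
      omega
    · intro N hN
      obtain ⟨h2, h3⟩ := hT N hN
      refine ⟨⟨N - 1, by omega⟩, ?_, ?_⟩
      · rw [hs, mem_filter]
        refine ⟨mem_univ _, ?_⟩
        show N - 1 + 1 ∈ T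
        rw [Nat.sub_add_cancel (by omega)]
        exact hN
      · show N - 1 + 1 = N
        omega
  rw [h1]
  have h2 : ∑ r ∈ s, PF X (r.val + 1) =
      ∑ c ∈ s.sigma (fun r => (univ : Finset (DirichletCharacter ℂ (r.val + 1))).filter
        (fun χ => χ.IsPrimitive)), ‖ThC X (2 * X) onef c.2‖ := by
    rw [Finset.sum_sigma]
    refine Finset.sum_congr rfl fun r _ => ?_
    unfold PF
    refine Finset.sum_congr ?_ (fun _ _ => rfl)
    ext χ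
    simp
  rw [h2]
  refine Finset.sum_le_sum_of_subset_of_nonneg ?_ (fun _ _ _ => norm_nonneg _)
  intro c hc
  rw [Finset.mem_sigma, hs, mem_filter, mem_filter] at hc
  unfold PC
  rw [mem_filter]
  exact ⟨mem_univ _, hc.2.2, (hT _ hc.1.2).1⟩

private theorem sd_le (X : ℕ) {q1 q2 : ℕ} (h1 : q1.Prime) (h2 : q2.Prime) (hne : q1 ≠ q2) :
    SD X q1 q2 ≤ PF X (q1 * q2) := by
  classical
  unfold SD PF
  rw [← Finset.sum_product']
  have h3 : ∀ p ∈ (univ : Finset (DirichletCharacter ℂ q1)).filter (fun χ => χ ≠ 1) ×ˢ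
      (univ : Finset (DirichletCharacter ℂ q2)).filter (fun χ => χ ≠ 1),
      ‖∑ n ∈ Ioc X (2 * X), ((pl n : ℝ) : ℂ) * (p.1 (n : ZMod q1) * p.2 (n : ZMod q2))‖ =
        ‖ThC X (2 * X) onef (prodCh p.1 p.2)‖ := by
    intro p _
    congr 1
    unfold ThC
    apply Finset.sum_congr rfl
    intro n _
    rw [prodCh_apply, onef, one_mul]
  rw [Finset.sum_congr rfl h3]
  have h4 : ∑ p ∈ (univ : Finset (DirichletCharacter ℂ q1)).filter (fun χ => χ ≠ 1) ×ˢ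
      (univ : Finset (DirichletCharacter ℂ q2)).filter (fun χ => χ ≠ 1),
        ‖ThC X (2 * X) onef (prodCh p.1 p.2)‖ =
      ∑ χ ∈ ((univ : Finset (DirichletCharacter ℂ q1)).filter (fun χ => χ ≠ 1) ×ˢ
      (univ : Finset (DirichletCharacter ℂ q2)).filter (fun χ => χ ≠ 1)).image (fun p => prodCh p.1 p.2),
        ‖ThC X (2 * X) onef χ‖ := by
    rw [Finset.sum_image]
    rintro ⟨a1, a2⟩ _ ⟨b1, b2⟩ _ hab
    obtain ⟨e1, e2⟩ := prodCh_inj h1 h2 hne a1 b1 a2 b2 hab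
    rw [e1, e2]
  rw [h4]
  refine Finset.sum_le_sum_of_subset_of_nonneg ?_ (fun _ _ _ => norm_nonneg _)
  intro χ hχ
  rw [mem_image] at hχ
  obtain ⟨p, hp, rfl⟩ := hχ
  rw [mem_product, mem_filter, mem_filter] at hp
  rw [mem_filter]
  exact ⟨mem_univ _, prodCh_prim h1 h2 hne p.1 p.2 hp.1.2 hp.2.2⟩

theorem pd (X R : ℕ) : ∑ q ∈ QQ R, ∑ r ∈ QQ R, (if q < r then SD X q r else 0) ≤
    ∑ c ∈ PC (4 * R ^ 2), ‖ThC X (2 * X) onef c.2‖ := by
  classical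
  set P := (QQ R ×ˢ QQ R).filter (fun p : ℕ × ℕ => p.1 < p.2) with hP
  have h0 : ∑ q ∈ QQ R, ∑ r ∈ QQ R, (if q < r then SD X q r else 0) = ∑ p ∈ P, SD X p.1 p.2 := by
    rw [hP, Finset.sum_filter, Finset.sum_product]
  rw [h0]
  have hm : ∀ p ∈ P, (p.1.Prime ∧ p.1 ≤ 2 * R) ∧ (p.2.Prime ∧ p.2 ≤ 2 * R) ∧ p.1 < p.2 := by
    intro p hp
    rw [hP, mem_filter, mem_product] at hp
    unfold QQ at hp
    rw [mem_filter, mem_filter, mem_Ioc, mem_Ioc] at hp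
    exact ⟨⟨hp.1.1.2, hp.1.1.1.2⟩, ⟨hp.1.2.2, hp.1.2.1.2⟩, hp.2⟩
  have h1 : ∑ p ∈ P, SD X p.1 p.2 ≤ ∑ p ∈ P, PF X (p.1 * p.2) := by
    apply Finset.sum_le_sum
    intro p hp
    obtain ⟨⟨a1, a2⟩, ⟨a3, a4⟩, a5⟩ := hm p hp
    exact sd_le X a1 a3 (by omega)
  have h2 : ∑ p ∈ P, PF X (p.1 * p.2) = ∑ N ∈ P.image (fun p => p.1 * p.2), PF X N := by
    rw [Finset.sum_image]
    intro p hp r hr hpr
    obtain ⟨⟨a1, _⟩, ⟨a3, _⟩, a5⟩ := hm p hp
    obtain ⟨⟨b1, _⟩, ⟨b3, _⟩, b5⟩ := hm r hr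
    simp only [] at hpr
    have c1 : p.1 ∣ r.1 * r.2 := by rw [← hpr]; exact dvd_mul_right _ _
    have c2 : p.2 ∣ r.1 * r.2 := by rw [← hpr]; exact dvd_mul_left _ _
    have d1 : p.1 = r.1 ∨ p.1 = r.2 := by
      rcases (Nat.Prime.dvd_mul a1).1 c1 with h | h
      · exact Or.inl ((Nat.prime_dvd_prime_iff_eq a1 b1).1 h)
      · exact Or.inr ((Nat.prime_dvd_prime_iff_eq a1 b3).1 h)
    have d2 : p.2 = r.1 ∨ p.2 = r.2 := by
      rcases (Nat.Prime.dvd_mul a3).1 c2 with h | h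
      · exact Or.inl ((Nat.prime_dvd_prime_iff_eq a3 b1).1 h)
      · exact Or.inr ((Nat.prime_dvd_prime_iff_eq a3 b3).1 h)
    exact Prod.ext (by omega) (by omega)
  rw [h2] at h1
  refine h1.trans (pf_PC X (4 * R ^ 2) _ ?_)
  intro N hN
  rw [mem_image] at hN
  obtain ⟨p, hp, rfl⟩ := hN
  obtain ⟨⟨a1, a2⟩, ⟨a3, a4⟩, a5⟩ := hm p hp
  have k1 := a1.two_le
  have k2 := a3.two_le
  constructor
  · nlinarith
  · nlinarith

theorem mv2 : ∃ C : ℝ, 0 < C ∧ ∀ X R u : ℕ, 1 ≤ u → u ^ 3 ≤ X → 1 ≤ R → 2 * R ^ 2 ≤ X →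
    ∑ q ∈ QQ R, ∑ r ∈ QQ R, (if q < r then SD X q r else 0) ≤
      C * (1 + Real.log (3 * X)) ^ 5 * ((X : ℝ) + (R : ℝ) ^ 2 * X / Real.sqrt u + (R : ℝ) ^ 4 * Real.sqrt X +
        (R : ℝ) ^ 5 * u) := by
  obtain ⟨C, hC, h⟩ := th_mean
  refine ⟨C * 32, by positivity, fun X R u hu hu3 hR hRX => ?_⟩
  have h1 := h (4 * R ^ 2) u X (2 * X) hu hu3 (by omega) (by omega)
  refine (pd X R).trans (h1.trans ?_)
  have hX1 : 1 ≤ X := by
    have : 1 ≤ u ^ 3 := Nat.one_le_pow _ _ hu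
    omega
  have hXr : (1 : ℝ) ≤ X := by exact_mod_cast hX1
  have hR0 : (0 : ℝ) ≤ R := Nat.cast_nonneg R
  have hu0 : (0 : ℝ) < u := by exact_mod_cast hu
  have hlog : Real.log ((2 * X : ℕ) : ℝ) ≤ Real.log (3 * X) := by
    apply Real.log_le_log (by push_cast; linarith)
    push_cast; linarith
  have hl0 : 0 ≤ Real.log ((2 * X : ℕ) : ℝ) := Real.log_natCast_nonneg _
  have hs2 : Real.sqrt ((2 * X : ℕ) : ℝ) ≤ 2 * Real.sqrt X := by
    rw [Real.sqrt_le_left (by positivity), mul_pow, Real.sq_sqrt (by linarith)]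
    push_cast; linarith
  have hs4 : Real.sqrt ((4 * R ^ 2 : ℕ) : ℝ) = 2 * R := by
    rw [show ((4 * R ^ 2 : ℕ) : ℝ) = (2 * (R : ℝ)) ^ 2 by push_cast; ring]
    exact Real.sqrt_sq (by positivity)
  have hmain : (((2 * X : ℕ) : ℝ) + ((4 * R ^ 2 : ℕ) : ℝ) * ((2 * X : ℕ) : ℝ) / Real.sqrt u +
      ((4 * R ^ 2 : ℕ) : ℝ) ^ 2 * Real.sqrt ((2 * X : ℕ) : ℝ) +
      ((4 * R ^ 2 : ℕ) : ℝ) ^ 2 * Real.sqrt ((4 * R ^ 2 : ℕ) : ℝ) * u) ≤
      32 * ((X : ℝ) + (R : ℝ) ^ 2 * X / Real.sqrt u + (R : ℝ) ^ 4 * Real.sqrt X + (R : ℝ) ^ 5 * u) := by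
    rw [hs4]
    have e1 : ((4 * R ^ 2 : ℕ) : ℝ) ^ 2 * Real.sqrt ((2 * X : ℕ) : ℝ) ≤
        32 * ((R : ℝ) ^ 4 * Real.sqrt X) := by
      calc ((4 * R ^ 2 : ℕ) : ℝ) ^ 2 * Real.sqrt ((2 * X : ℕ) : ℝ)
          ≤ ((4 * R ^ 2 : ℕ) : ℝ) ^ 2 * (2 * Real.sqrt X) := by gcongr
        _ = 32 * ((R : ℝ) ^ 4 * Real.sqrt X) := by push_cast; ring
    have e2 : ((4 * R ^ 2 : ℕ) : ℝ) * ((2 * X : ℕ) : ℝ) / Real.sqrt u =
        8 * ((R : ℝ) ^ 2 * X / Real.sqrt u) := by push_cast; ring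
    have e3 : ((4 * R ^ 2 : ℕ) : ℝ) ^ 2 * (2 * (R : ℝ)) * u = 32 * ((R : ℝ) ^ 5 * u) := by push_cast; ring
    have e4 : 0 ≤ (R : ℝ) ^ 2 * X / Real.sqrt u := by positivity
    rw [e2, e3]
    push_cast at e1 ⊢
    linarith
  calc C * (1 + Real.log ((2 * X : ℕ) : ℝ)) ^ 5 * (((2 * X : ℕ) : ℝ) +
        ((4 * R ^ 2 : ℕ) : ℝ) * ((2 * X : ℕ) : ℝ) / Real.sqrt u +
      ((4 * R ^ 2 : ℕ) : ℝ) ^ 2 * Real.sqrt ((2 * X : ℕ) : ℝ) +
      ((4 * R ^ 2 : ℕ) : ℝ) ^ 2 * Real.sqrt ((4 * R ^ 2 : ℕ) : ℝ) * u)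
      ≤ C * (1 + Real.log (3 * X)) ^ 5 *
        (32 * ((X : ℝ) + (R : ℝ) ^ 2 * X / Real.sqrt u + (R : ℝ) ^ 4 * Real.sqrt X + (R : ℝ) ^ 5 * u)) := by
        have hl3 : 0 ≤ Real.log (3 * X) := hl0.trans hlog
        gcongr
    _ = _ := by ring

end Pool.Agent.H99.GC
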