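import Pool.Agent.H99.GC.Pvl
import Pool.Agent.H99.GB.Cov

/-!
# [H99 GC COV2]  the covariance with a product of two functions

PROOF. For `y` prime to `q`: `(q-1) φ_q(y-j) = -φ_q(-j) + ∑_{χ≠1} χ(y⁻¹) Lc h j χ`. Multiply for `q` and `r`, sum over `j ≤ H` and over
the primes in `(X, 2X]` with weights `pl`. The `n` near `X` and near `2X` and the term `H ∑_x` (period `q r`, mean `0`) as in `cov`.
-/

set_option autoImplicit false

namespace Pool.Agent.H99.GC

open Finset Pool.Agent.H67.VS Pool.Agent.H99.GB Pool.Agent.H67.VU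

/-- the nontrivial part -/
noncomputable def Aq (q h j : ℕ) [Fact q.Prime] (y : ZMod q) : ℂ :=
  ∑ χ ∈ (univ : Finset (DirichletCharacter ℂ q)).erase 1, χ y⁻¹ * Lc h j χ

private lemma cov2_id {q h : ℕ} [Fact q.Prime] (j : ℕ) (y : ZMod q) (hy : IsUnit y) :
    ((q : ℂ) - 1) * ((phz q h (y - ((j : ℕ) : ZMod q)) : ℝ) : ℂ) =
      -((phz q h (-((j : ℕ) : ZMod q)) : ℝ) : ℂ) + Aq q h j y := by
  classical
  have hq0 : (q : ℂ) ≠ 0 := by
    have := (Fact.out : q.Prime).pos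
    exact_mod_cast this.ne'
  have h1 : ∑ χ : DirichletCharacter ℂ q, χ y⁻¹ * Lc h j χ =
      ∑ i ∈ Icc 1 h, (if y = ((j : ℕ) : ZMod q) - ((i : ℕ) : ZMod q) then ((q : ℂ) - 1) else 0) := by
    unfold Lc
    simp only [Finset.mul_sum]
    rw [Finset.sum_comm]
    refine Finset.sum_congr rfl fun i _ => ?_
    rw [DirichletCharacter.sum_char_inv_mul_char_eq ℂ hy]
    rw [Nat.totient_prime (Fact.out : q.Prime), Nat.cast_sub (Fact.out : q.Prime).one_le, Nat.cast_one]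
  have h2 : ((phz q h (y - ((j : ℕ) : ZMod q)) : ℝ) : ℂ) = (∑ i ∈ Icc 1 h,
        (if y = ((j : ℕ) : ZMod q) - ((i : ℕ) : ZMod q) then (1 : ℂ) else 0)) - (h : ℂ) / q := by
    unfold phz
    have e1 : ∀ i : ℕ, (y - ((j : ℕ) : ZMod q) + ((i : ℕ) : ZMod q) = 0) ↔
        y = ((j : ℕ) : ZMod q) - ((i : ℕ) : ZMod q) := by
      intro i
      constructor
      · intro h
        linear_combination h
      · intro h
        linear_combination h
    simp only [e1]
    push_cast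
    congr 1
    refine Finset.sum_congr rfl fun i _ => ?_
    split_ifs
    · exact Complex.ofReal_one
    · exact Complex.ofReal_zero
  have h2' : ((phz q h (-((j : ℕ) : ZMod q)) : ℝ) : ℂ) = (∑ i ∈ Icc 1 h,
        (if ((j : ℕ) : ZMod q) = ((i : ℕ) : ZMod q) then (1 : ℂ) else 0)) - (h : ℂ) / q := by
    unfold phz
    have e1 : ∀ i : ℕ, (-((j : ℕ) : ZMod q) + ((i : ℕ) : ZMod q) = 0) ↔
        ((j : ℕ) : ZMod q) = ((i : ℕ) : ZMod q) := by
      intro i
      constructor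
      · intro h
        linear_combination -h
      · intro h
        linear_combination -h
    simp only [e1]
    push_cast
    congr 1
    refine Finset.sum_congr rfl fun i _ => ?_
    split_ifs
    · exact Complex.ofReal_one
    · exact Complex.ofReal_zero
  have h3 := Finset.add_sum_erase (univ : Finset (DirichletCharacter ℂ q))
    (fun χ => χ y⁻¹ * Lc h j χ) (mem_univ 1)
  have hy1 : (1 : DirichletCharacter ℂ q) y⁻¹ = 1 := by
    rw [MulChar.one_apply]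
    rw [isUnit_iff_ne_zero] at hy ⊢
    exact inv_ne_zero hy
  have hL1 : Lc h j (1 : DirichletCharacter ℂ q) = (h : ℂ) - ∑ i ∈ Icc 1 h,
        (if ((j : ℕ) : ZMod q) = ((i : ℕ) : ZMod q) then (1 : ℂ) else 0) := by
    unfold Lc
    have e1 : ∀ i ∈ Icc 1 h, (1 : DirichletCharacter ℂ q) (((j : ℕ) : ZMod q) - ((i : ℕ) : ZMod q)) =
        1 - (if ((j : ℕ) : ZMod q) = ((i : ℕ) : ZMod q) then (1 : ℂ) else 0) := by
      intro i _
      by_cases hji : ((j : ℕ) : ZMod q) = ((i : ℕ) : ZMod q)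
      · rw [if_pos hji, hji, sub_self, sub_self, MulChar.map_zero]
      · rw [if_neg hji, sub_zero, MulChar.one_apply]
        rw [isUnit_iff_ne_zero, sub_ne_zero]
        exact hji
    rw [Finset.sum_congr rfl e1, Finset.sum_sub_distrib]
    simp
  simp only [hy1, hL1, h1, one_mul] at h3
  have h4 : ∑ i ∈ Icc 1 h, (if y = ((j : ℕ) : ZMod q) - ((i : ℕ) : ZMod q) then ((q : ℂ) - 1) else 0) =
      ((q : ℂ) - 1) * ∑ i ∈ Icc 1 h,
        (if y = ((j : ℕ) : ZMod q) - ((i : ℕ) : ZMod q) then (1 : ℂ) else 0) := by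
    simp only [Finset.mul_sum, mul_ite, mul_one, mul_zero]
  rw [h4] at h3
  unfold Aq
  rw [h2, h2']
  have h5 : ∑ χ ∈ (univ : Finset (DirichletCharacter ℂ q)).erase 1, χ y⁻¹ * Lc h j χ =
      ((q : ℂ) - 1) * (∑ i ∈ Icc 1 h,
        (if y = ((j : ℕ) : ZMod q) - ((i : ℕ) : ZMod q) then (1 : ℂ) else 0)) - ((h : ℂ) - ∑ i ∈ Icc 1 h,
        (if ((j : ℕ) : ZMod q) = ((i : ℕ) : ZMod q) then (1 : ℂ) else 0)) := by
    linear_combination h3
  rw [h5]
  field_simp
  ring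

private lemma cov2_SC {q : ℕ} [Fact q.Prime] (X : ℕ) : SC X q =
    ∑ χ ∈ (univ : Finset (DirichletCharacter ℂ q)).erase 1, ‖ThC X (2 * X) onef χ‖ := by
  classical
  unfold SC
  refine Finset.sum_congr ?_ (fun _ _ => rfl)
  ext χ
  simp

private lemma cov2_SD {q r : ℕ} [Fact q.Prime] [Fact r.Prime] (X : ℕ) : SD X q r =
    ∑ χ ∈ (univ : Finset (DirichletCharacter ℂ q)).erase 1,
      ∑ ψ ∈ (univ : Finset (DirichletCharacter ℂ r)).erase 1,
      ‖∑ n ∈ Ioc X (2 * X), ((pl n : ℝ) : ℂ) * (χ (n : ZMod q) * ψ (n : ZMod r))‖ := by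
  classical
  unfold SD
  refine Finset.sum_congr ?_ (fun χ _ => Finset.sum_congr ?_ (fun _ _ => rfl))
  · ext χ
    simp
  · ext ψ
    simp

private lemma cov2_conj {q : ℕ} [Fact q.Prime] (χ : DirichletCharacter ℂ q) (x : ZMod q) :
    χ x⁻¹ = (starRingEnd ℂ) (χ x) := by
  rw [starRingEnd_apply, MulChar.star_apply', MulChar.inv_apply']

private lemma cov2_A1 {q : ℕ} [Fact q.Prime] (X h j : ℕ) (hh : h < q) :
    ‖∑ n ∈ Ioc X (2 * X), ((pl n : ℝ) : ℂ) * Aq q h j (n : ZMod q)‖ ≤ pv q * SC X q := by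
  classical
  have h1 : ∑ n ∈ Ioc X (2 * X), ((pl n : ℝ) : ℂ) * Aq q h j (n : ZMod q) =
      ∑ χ ∈ (univ : Finset (DirichletCharacter ℂ q)).erase 1,
        Lc h j χ * (starRingEnd ℂ) (ThC X (2 * X) onef χ) := by
    unfold Aq ThC
    simp only [map_sum, Finset.mul_sum]
    rw [Finset.sum_comm]
    refine Finset.sum_congr rfl fun χ _ => Finset.sum_congr rfl fun n _ => ?_
    rw [map_mul, Complex.conj_ofReal, ← cov2_conj]
    unfold onef
    push_cast
    ring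
  rw [h1, cov2_SC, Finset.mul_sum]
  refine (norm_sum_le _ _).trans (Finset.sum_le_sum fun χ hχ => ?_)
  rw [mem_erase] at hχ
  rw [norm_mul, RCLike.norm_conj]
  exact mul_le_mul_of_nonneg_right (lc_bd Fact.out χ hχ.1 h j hh) (norm_nonneg _)

private lemma cov2_A2 {q r : ℕ} [Fact q.Prime] [Fact r.Prime] (X h k j : ℕ) (hh : h < q) (hk : k < r) :
    ‖∑ n ∈ Ioc X (2 * X), ((pl n : ℝ) : ℂ) * (Aq q h j (n : ZMod q) * Aq r k j (n : ZMod r))‖ ≤
      pv q * pv r * SD X q r := by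
  classical
  have h1 : ∑ n ∈ Ioc X (2 * X), ((pl n : ℝ) : ℂ) * (Aq q h j (n : ZMod q) * Aq r k j (n : ZMod r)) =
      ∑ χ ∈ (univ : Finset (DirichletCharacter ℂ q)).erase 1,
      ∑ ψ ∈ (univ : Finset (DirichletCharacter ℂ r)).erase 1,
        (Lc h j χ * Lc k j ψ) *
          (starRingEnd ℂ) (∑ n ∈ Ioc X (2 * X), ((pl n : ℝ) : ℂ) * (χ (n : ZMod q) * ψ (n : ZMod r))) := by
    have e1 : ∀ n ∈ Ioc X (2 * X), ((pl n : ℝ) : ℂ) * (Aq q h j (n : ZMod q) * Aq r k j (n : ZMod r)) =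
        ∑ χ ∈ (univ : Finset (DirichletCharacter ℂ q)).erase 1,
        ∑ ψ ∈ (univ : Finset (DirichletCharacter ℂ r)).erase 1,
          (Lc h j χ * Lc k j ψ) *
          (starRingEnd ℂ) (((pl n : ℝ) : ℂ) * (χ (n : ZMod q) * ψ (n : ZMod r))) := by
      intro n _
      unfold Aq
      rw [Finset.sum_mul_sum, Finset.mul_sum]
      refine Finset.sum_congr rfl fun χ _ => ?_
      rw [Finset.mul_sum]
      refine Finset.sum_congr rfl fun ψ _ => ?_
      rw [map_mul, map_mul, Complex.conj_ofReal, ← cov2_conj, ← cov2_conj]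
      ring
    rw [Finset.sum_congr rfl e1, Finset.sum_comm]
    refine Finset.sum_congr rfl fun χ _ => ?_
    rw [Finset.sum_comm]
    refine Finset.sum_congr rfl fun ψ _ => ?_
    rw [map_sum, Finset.mul_sum]
  rw [h1, cov2_SD, Finset.mul_sum]
  refine (norm_sum_le _ _).trans (Finset.sum_le_sum fun χ hχ => ?_)
  rw [Finset.mul_sum]
  refine (norm_sum_le _ _).trans (Finset.sum_le_sum fun ψ hψ => ?_)
  rw [mem_erase] at hχ hψ
  rw [norm_mul, norm_mul, RCLike.norm_conj]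
  refine mul_le_mul_of_nonneg_right ?_ (norm_nonneg _)
  exact mul_le_mul (lc_bd Fact.out χ hχ.1 h j hh) (lc_bd Fact.out ψ hψ.1 k j hk) (norm_nonneg _)
    ((norm_nonneg _).trans (lc_bd Fact.out χ hχ.1 h j hh))

/-- the sum over `j ≤ H` -/
noncomputable def F2 (q r H : ℕ) (n : ℕ) : ℝ :=
  ∑ j ∈ Icc 1 H, phz q (H % q) ((n : ZMod q) - ((j : ℕ) : ZMod q)) *
    phz r (H % r) ((n : ZMod r) - ((j : ℕ) : ZMod r))

private lemma cov2_SC0 (X q : ℕ) : 0 ≤ SC X q := by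
  unfold SC
  exact Finset.sum_nonneg fun _ _ => norm_nonneg _

private lemma cov2_pl0 (n : ℕ) : 0 ≤ pl n := by
  unfold pl
  split_ifs with h
  · exact Real.log_nonneg (by exact_mod_cast h.one_lt.le)
  · exact le_rfl

theorem cov2_char (X H q r : ℕ) (hq : q.Prime) (hr : r.Prime) (hqX : q ≤ X) (hrX : r ≤ X) :
    |∑ n ∈ Ioc X (2 * X), pl n * F2 q r H n| ≤
      (H : ℝ) / (((q : ℝ) - 1) * ((r : ℝ) - 1)) * (∑ n ∈ Ioc X (2 * X), pl n + pv q * SC X q + pv r * SC X r +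
        pv q * pv r * SD X q r) := by
  classical
  haveI : Fact q.Prime := ⟨hq⟩
  haveI : Fact r.Prime := ⟨hr⟩
  have hq1 : (0 : ℝ) < (q : ℝ) - 1 := by
    have h2 : (1 : ℝ) < q := by exact_mod_cast hq.one_lt
    linarith
  have hr1 : (0 : ℝ) < (r : ℝ) - 1 := by
    have h2 : (1 : ℝ) < r := by exact_mod_cast hr.one_lt
    linarith
  have hhq : H % q < q := Nat.mod_lt _ hq.pos
  have hhr : H % r < r := Nat.mod_lt _ hr.pos
  set Θ : ℝ := ∑ n ∈ Ioc X (2 * X), pl n with hΘ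
  have hΘ0 : 0 ≤ Θ := Finset.sum_nonneg fun n _ => cov2_pl0 n
  set M : ℝ := Θ + pv q * SC X q + pv r * SC X r + pv q * pv r * SD X q r with hM
  set S : ℝ := ∑ n ∈ Ioc X (2 * X), pl n * F2 q r H n with hS
  set b : ℕ → ℝ := fun j => phz q (H % q) (-((j : ℕ) : ZMod q)) with hb
  set c : ℕ → ℝ := fun j => phz r (H % r) (-((j : ℕ) : ZMod r)) with hc
  have hb1 : ∀ j, |b j| ≤ 1 := fun j => phz_abs q _ hhq _
  have hc1 : ∀ j, |c j| ≤ 1 := fun j => phz_abs r _ hhr _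
  have hterm : ∀ n ∈ Ioc X (2 * X), ∀ j : ℕ, ((pl n : ℝ) : ℂ) * (((q : ℂ) - 1) * ((r : ℂ) - 1) *
      (((phz q (H % q) ((n : ZMod q) - ((j : ℕ) : ZMod q)) *
        phz r (H % r) ((n : ZMod r) - ((j : ℕ) : ZMod r)) : ℝ)) : ℂ)) =
      (b j : ℂ) * (c j : ℂ) * ((pl n : ℝ) : ℂ)
        - (b j : ℂ) * (((pl n : ℝ) : ℂ) * Aq r (H % r) j (n : ZMod r))
        - (c j : ℂ) * (((pl n : ℝ) : ℂ) * Aq q (H % q) j (n : ZMod q))
        + ((pl n : ℝ) : ℂ) * (Aq q (H % q) j (n : ZMod q) * Aq r (H % r) j (n : ZMod r)) := by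
    intro n hn j
    rw [mem_Ioc] at hn
    by_cases hpn : n.Prime
    · have hu1 : IsUnit (n : ZMod q) := by
        rw [ZMod.isUnit_iff_coprime, Nat.coprime_primes hpn hq]
        omega
      have hu2 : IsUnit (n : ZMod r) := by
        rw [ZMod.isUnit_iff_coprime, Nat.coprime_primes hpn hr]
        omega
      have e1 := cov2_id (h := H % q) j (n : ZMod q) hu1
      have e2 := cov2_id (h := H % r) j (n : ZMod r) hu2
      have e3 : ((q : ℂ) - 1) * ((r : ℂ) - 1) *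
          (((phz q (H % q) ((n : ZMod q) - ((j : ℕ) : ZMod q)) *
          phz r (H % r) ((n : ZMod r) - ((j : ℕ) : ZMod r)) : ℝ)) : ℂ) =
          (-(b j : ℂ) + Aq q (H % q) j (n : ZMod q)) * (-(c j : ℂ) + Aq r (H % r) j (n : ZMod r)) := by
        rw [hb, hc]
        rw [← e1, ← e2]
        push_cast
        ring
      rw [e3]
      ring
    · have h0 : pl n = 0 := by
        unfold pl
        rw [if_neg hpn]
      rw [h0]
      simp
  have hsum : ((q : ℂ) - 1) * ((r : ℂ) - 1) * (S : ℂ) = ∑ j ∈ Icc 1 H,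
      ((b j : ℂ) * (c j : ℂ) * (Θ : ℂ)
        - (b j : ℂ) * (∑ n ∈ Ioc X (2 * X), ((pl n : ℝ) : ℂ) * Aq r (H % r) j (n : ZMod r))
        - (c j : ℂ) * (∑ n ∈ Ioc X (2 * X), ((pl n : ℝ) : ℂ) * Aq q (H % q) j (n : ZMod q))
        + ∑ n ∈ Ioc X (2 * X), ((pl n : ℝ) : ℂ) *
            (Aq q (H % q) j (n : ZMod q) * Aq r (H % r) j (n : ZMod r))) := by
    have e1 : ((q : ℂ) - 1) * ((r : ℂ) - 1) * (S : ℂ) = ∑ n ∈ Ioc X (2 * X), ∑ j ∈ Icc 1 H,
        ((pl n : ℝ) : ℂ) * (((q : ℂ) - 1) * ((r : ℂ) - 1) *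
      (((phz q (H % q) ((n : ZMod q) - ((j : ℕ) : ZMod q)) *
        phz r (H % r) ((n : ZMod r) - ((j : ℕ) : ZMod r)) : ℝ)) : ℂ)) := by
      rw [hS]
      unfold F2
      push_cast
      rw [Finset.mul_sum]
      refine Finset.sum_congr rfl fun n _ => ?_
      rw [Finset.mul_sum, Finset.mul_sum]
      refine Finset.sum_congr rfl fun j _ => ?_
      ring
    rw [e1, Finset.sum_comm]
    refine Finset.sum_congr rfl fun j _ => ?_
    rw [Finset.sum_congr rfl fun n hn => hterm n hn j, Finset.sum_add_distrib, Finset.sum_sub_distrib,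
      Finset.sum_sub_distrib, ← Finset.mul_sum, ← Finset.mul_sum, ← Finset.mul_sum, hΘ]
    push_cast
    rfl
  have hbC : ∀ j, ‖(b j : ℂ)‖ ≤ 1 := fun j => by
    rw [Complex.norm_real, Real.norm_eq_abs]
    exact hb1 j
  have hcC : ∀ j, ‖(c j : ℂ)‖ ≤ 1 := fun j => by
    rw [Complex.norm_real, Real.norm_eq_abs]
    exact hc1 j
  have hnorm : ‖((q : ℂ) - 1) * ((r : ℂ) - 1) * (S : ℂ)‖ ≤ H * M := by
    rw [hsum]
    refine (norm_sum_le _ _).trans ?_
    have h1 : ∀ j ∈ Icc 1 H, ‖(b j : ℂ) * (c j : ℂ) * (Θ : ℂ)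
        - (b j : ℂ) * (∑ n ∈ Ioc X (2 * X), ((pl n : ℝ) : ℂ) * Aq r (H % r) j (n : ZMod r))
        - (c j : ℂ) * (∑ n ∈ Ioc X (2 * X), ((pl n : ℝ) : ℂ) * Aq q (H % q) j (n : ZMod q))
        + ∑ n ∈ Ioc X (2 * X), ((pl n : ℝ) : ℂ) *
            (Aq q (H % q) j (n : ZMod q) * Aq r (H % r) j (n : ZMod r))‖ ≤ M := by
      intro j _
      have t1 : ‖(b j : ℂ) * (c j : ℂ) * (Θ : ℂ)‖ ≤ Θ := by
        rw [norm_mul, norm_mul, Complex.norm_real Θ, Real.norm_eq_abs, abs_of_nonneg hΘ0]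
        have := mul_le_mul (hbC j) (hcC j) (norm_nonneg _) (by norm_num : (0 : ℝ) ≤ 1)
        calc ‖(b j : ℂ)‖ * ‖(c j : ℂ)‖ * Θ ≤ 1 * 1 * Θ := mul_le_mul_of_nonneg_right this hΘ0
          _ = Θ := by ring
      have t2 : ‖(b j : ℂ) * (∑ n ∈ Ioc X (2 * X), ((pl n : ℝ) : ℂ) * Aq r (H % r) j (n : ZMod r))‖ ≤
          pv r * SC X r := by
        rw [norm_mul]
        calc _ ≤ 1 * (pv r * SC X r) :=
              mul_le_mul (hbC j) (cov2_A1 X (H % r) j hhr) (norm_nonneg _) (by norm_num)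
          _ = _ := one_mul _
      have t3 : ‖(c j : ℂ) * (∑ n ∈ Ioc X (2 * X), ((pl n : ℝ) : ℂ) * Aq q (H % q) j (n : ZMod q))‖ ≤
          pv q * SC X q := by
        rw [norm_mul]
        calc _ ≤ 1 * (pv q * SC X q) :=
              mul_le_mul (hcC j) (cov2_A1 X (H % q) j hhq) (norm_nonneg _) (by norm_num)
          _ = _ := one_mul _
      have t4 := cov2_A2 (q := q) (r := r) X (H % q) (H % r) j hhq hhr
      refine (norm_add_le _ _).trans ?_
      have t5 := norm_sub_le ((b j : ℂ) * (c j : ℂ) * (Θ : ℂ)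
        - (b j : ℂ) * (∑ n ∈ Ioc X (2 * X), ((pl n : ℝ) : ℂ) * Aq r (H % r) j (n : ZMod r)))
        ((c j : ℂ) * (∑ n ∈ Ioc X (2 * X), ((pl n : ℝ) : ℂ) * Aq q (H % q) j (n : ZMod q)))
      have t6 := norm_sub_le ((b j : ℂ) * (c j : ℂ) * (Θ : ℂ))
        ((b j : ℂ) * (∑ n ∈ Ioc X (2 * X), ((pl n : ℝ) : ℂ) * Aq r (H % r) j (n : ZMod r)))
      rw [hM]
      linarith
    refine (Finset.sum_le_card_nsmul _ _ _ h1).trans ?_
    rw [Nat.card_Icc, Nat.add_sub_cancel, nsmul_eq_mul]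
  have hre : ((q : ℂ) - 1) * ((r : ℂ) - 1) * (S : ℂ) = (((((q : ℝ) - 1) * ((r : ℝ) - 1)) * S : ℝ) : ℂ) := by
    push_cast
    ring
  have hqr : 0 < ((q : ℝ) - 1) * ((r : ℝ) - 1) := mul_pos hq1 hr1
  rw [hre, Complex.norm_real, Real.norm_eq_abs, abs_mul, abs_of_pos hqr] at hnorm
  rw [div_mul_eq_mul_div, le_div_iff₀ hqr]
  linarith

/-- partial sum of the product in front of `pl m` -/
noncomputable def W2 (X H q r m : ℕ) : ℝ :=
  ∑ x ∈ Ico (max (X + 1) (m - H)) (min (2 * X + 1) m), ph H q x * ph H r x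

private lemma cov2_swap (X H q r : ℕ) (hHX : H ≤ X) :
    ∑ x ∈ Ioc X (2 * X), ph H q x * ph H r x * ∑ m ∈ Ioc x (x + H), pl m =
      ∑ m ∈ Ioc X (3 * X), pl m * W2 X H q r m := by
  have h1 : ∀ x ∈ Ioc X (2 * X), ph H q x * ph H r x * ∑ m ∈ Ioc x (x + H), pl m =
      ∑ m ∈ Ioc X (3 * X), if (x < m ∧ m ≤ x + H) then pl m * (ph H q x * ph H r x) else 0 := by
    intro x hx
    rw [mem_Ioc] at hx
    rw [Finset.mul_sum, ← Finset.sum_filter]
    refine Finset.sum_congr ?_ (fun m _ => mul_comm _ _)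
    ext m
    rw [mem_filter, mem_Ioc, mem_Ioc]
    omega
  rw [Finset.sum_congr rfl h1, Finset.sum_comm]
  refine Finset.sum_congr rfl fun m hm => ?_
  rw [mem_Ioc] at hm
  unfold W2
  rw [Finset.mul_sum, ← Finset.sum_filter]
  refine Finset.sum_congr ?_ (fun x _ => rfl)
  ext x
  rw [mem_filter, mem_Ioc, mem_Ico]
  omega

private lemma cov2_pp (H q r x : ℕ) (hq : 0 < q) (hr : 0 < r) : |ph H q x * ph H r x| ≤ 1 := by
  rw [abs_mul]
  exact mul_le_one₀ (ph_abs H q x hq) (abs_nonneg _) (ph_abs H r x hr)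

private lemma cov2_W (X H q r m : ℕ) (hq : 0 < q) (hr : 0 < r) : |W2 X H q r m| ≤ H := by
  unfold W2
  refine (Finset.abs_sum_le_sum_abs _ _).trans ?_
  refine (Finset.sum_le_sum fun x _ => cov2_pp H q r x hq hr).trans ?_
  simp only [sum_const, Nat.card_Ico, nsmul_eq_mul, mul_one]
  have h1 : min (2 * X + 1) m - max (X + 1) (m - H) ≤ H := by omega
  exact_mod_cast h1

private lemma cov2_Wz (X H q r m : ℕ) (h : 2 * X + H < m) : W2 X H q r m = 0 := by
  unfold W2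
  rw [Finset.Ico_eq_empty (by omega)]
  simp

private lemma cov2_full (H q r m : ℕ) (hq : 0 < q) (hr : 0 < r) (hm : H ≤ m) :
    F2 q r H m = ∑ x ∈ Ico (m - H) m, ph H q x * ph H r x := by
  unfold F2
  refine Finset.sum_bij' (fun j _ => m - j) (fun x _ => m - x) ?_ ?_ ?_ ?_ ?_
  · intro j hj
    rw [mem_Icc] at hj
    rw [mem_Ico]
    omega
  · intro x hx
    rw [mem_Ico] at hx
    rw [mem_Icc]
    omega
  · intro j hj
    rw [mem_Icc] at hj
    omega
  · intro x hx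
    rw [mem_Ico] at hx
    omega
  · intro j hj
    rw [mem_Icc] at hj
    rw [ph_eq H q (m - j) hq, ph_eq H r (m - j) hr, Nat.cast_sub (by omega), Nat.cast_sub (by omega)]

private lemma cov2_F (H q r m : ℕ) (hq : 0 < q) (hr : 0 < r) (hm : H ≤ m) : |F2 q r H m| ≤ H := by
  rw [cov2_full H q r m hq hr hm]
  refine (Finset.abs_sum_le_sum_abs _ _).trans ?_
  refine (Finset.sum_le_sum fun x _ => cov2_pp H q r x hq hr).trans ?_
  simp only [sum_const, Nat.card_Ico, nsmul_eq_mul, mul_one]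
  have h1 : m - (m - H) ≤ H := by omega
  exact_mod_cast h1

private lemma cov2_pl (X m : ℕ) (hm : m ≤ 3 * X) : |pl m| ≤ Real.log (3 * X) := by
  unfold pl
  split_ifs with h
  · have h1 : (1 : ℝ) ≤ m := by exact_mod_cast h.one_lt.le
    have h2 : (m : ℝ) ≤ 3 * X := by exact_mod_cast hm
    rw [abs_of_nonneg (Real.log_nonneg h1)]
    exact Real.log_le_log (by linarith) h2
  · rw [abs_zero]
    rcases Nat.eq_zero_or_pos X with hX | hX
    · rw [hX]
      simp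
    · have : (1 : ℝ) ≤ X := by exact_mod_cast hX
      exact Real.log_nonneg (by linarith)

private lemma cov2_cast (m q x : ℕ) (h : q ∣ m) : (((x % m : ℕ)) : ZMod q) = (x : ZMod q) := by
  rw [ZMod.natCast_eq_natCast_iff]
  exact (Nat.mod_modEq x m).of_dvd h

/-- the sum over an interval -/
private lemma cov2_per (H q r a b : ℕ) (hq : q.Prime) (hr : r.Prime) (hqr : q ≠ r) :
    |∑ x ∈ Ico a b, ph H q x * ph H r x| ≤ (q : ℝ) * r := by
  classical
  haveI : NeZero q := ⟨hq.ne_zero⟩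
  haveI : NeZero r := ⟨hr.ne_zero⟩
  haveI : NeZero (q * r) := ⟨mul_ne_zero hq.ne_zero hr.ne_zero⟩
  have hcop : Nat.Coprime q r := (Nat.coprime_primes hq hr).2 hqr
  set F : ZMod (q * r) → ℝ := fun y => phz q (H % q) ((y.val : ℕ) : ZMod q) *
    phz r (H % r) ((y.val : ℕ) : ZMod r) with hF
  have hbij : Function.Bijective (fun y : ZMod (q * r) =>
      ((((y.val : ℕ) : ZMod q), ((y.val : ℕ) : ZMod r)) : ZMod q × ZMod r)) := by
    rw [Fintype.bijective_iff_injective_and_card]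
    refine ⟨?_, by rw [ZMod.card, Fintype.card_prod, ZMod.card, ZMod.card]⟩
    intro y z hyz
    have h1 : ((y.val : ℕ) : ZMod q) = ((z.val : ℕ) : ZMod q) := congrArg Prod.fst hyz
    have h2 : ((y.val : ℕ) : ZMod r) = ((z.val : ℕ) : ZMod r) := congrArg Prod.snd hyz
    rw [ZMod.natCast_eq_natCast_iff] at h1 h2
    have h3 : y.val ≡ z.val [MOD q * r] := (Nat.modEq_and_modEq_iff_modEq_mul hcop).1 ⟨h1, h2⟩
    exact ZMod.val_injective _ (Nat.ModEq.eq_of_lt_of_lt h3 (ZMod.val_lt y) (ZMod.val_lt z))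
  have hsum : ∑ y : ZMod (q * r), F y = 0 := by
    have h1 : ∑ y : ZMod (q * r), F y = ∑ z : ZMod q × ZMod r, phz q (H % q) z.1 * phz r (H % r) z.2 :=
      hbij.sum_comp (fun z : ZMod q × ZMod r => phz q (H % q) z.1 * phz r (H % r) z.2)
    rw [h1, Fintype.sum_prod_type]
    have h2 : ∀ x : ZMod q, ∑ y : ZMod r, phz q (H % q) x * phz r (H % r) y = 0 := by
      intro x
      rw [← Finset.mul_sum, phz_sum r _ hr.pos, mul_zero]
    exact Finset.sum_eq_zero fun x _ => h2 x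
  have hb : ∀ y, |F y| ≤ 1 := by
    intro y
    rw [hF]
    show |phz q (H % q) ((y.val : ℕ) : ZMod q) * phz r (H % r) ((y.val : ℕ) : ZMod r)| ≤ 1
    rw [abs_mul]
    exact mul_le_one₀ (phz_abs q _ (Nat.mod_lt _ hq.pos) _) (abs_nonneg _)
      (phz_abs r _ (Nat.mod_lt _ hr.pos) _)
  have h1 : ∑ x ∈ Ico a b, ph H q x * ph H r x = ∑ x ∈ Ico a b, F ((x : ℕ) : ZMod (q * r)) := by
    refine Finset.sum_congr rfl fun x _ => ?_
    rw [ph_eq H q x hq.pos, ph_eq H r x hr.pos, hF]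
    show _ = phz q (H % q) ((((x : ZMod (q * r))).val : ℕ) : ZMod q) *
      phz r (H % r) ((((x : ZMod (q * r))).val : ℕ) : ZMod r)
    rw [ZMod.val_natCast, cov2_cast (q * r) q x (dvd_mul_right q r), cov2_cast (q * r) r x (dvd_mul_left r q)]
  rw [h1]
  have := per_bd F hsum hb a b
  push_cast at this
  exact this

theorem cov2 (X H q r : ℕ) (hq : q.Prime) (hr : r.Prime) (hqr : q ≠ r) (hqX : q ≤ X) (hrX : r ≤ X)
    (hH : 1 ≤ H) (hHX : H ≤ X) :
    |∑ x ∈ Ioc X (2 * X), ph H q x * ph H r x * ET x H| ≤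
      (H : ℝ) / (((q : ℝ) - 1) * ((r : ℝ) - 1)) * (∑ n ∈ Ioc X (2 * X), pl n + pv q * SC X q + pv r * SC X r +
        pv q * pv r * SD X q r) + 10 * (H : ℝ) ^ 2 * Real.log (3 * X) + H * (q * r) := by
  have hq0 : 0 < q := hq.pos
  have hr0 : 0 < r := hr.pos
  set Lg : ℝ := Real.log (3 * X) with hLg
  have hX1 : 1 ≤ X := hH.trans hHX
  have hX1r : (1 : ℝ) ≤ X := by exact_mod_cast hX1
  have hLg0 : 0 ≤ Lg := Real.log_nonneg (by linarith)
  have hHr : (1 : ℝ) ≤ H := by exact_mod_cast hH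
  have hch := cov2_char X H q r hq hr hqX hrX
  set S : ℝ := ∑ n ∈ Ioc X (2 * X), pl n * F2 q r H n with hS
  have e1 : ∑ x ∈ Ioc X (2 * X), ph H q x * ph H r x * ET x H =
      (∑ m ∈ Ioc X (3 * X), pl m * W2 X H q r m) - H * ∑ x ∈ Ioc X (2 * X), ph H q x * ph H r x := by
    rw [← cov2_swap X H q r hHX, Finset.mul_sum, ← Finset.sum_sub_distrib]
    refine Finset.sum_congr rfl fun x _ => ?_
    unfold ET
    ring
  have e2 : ∑ m ∈ Ioc X (3 * X), pl m * W2 X H q r m = S +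
      (∑ m ∈ Ioc X (2 * X), pl m * (W2 X H q r m - F2 q r H m)) +
      ∑ m ∈ Ioc (2 * X) (3 * X), pl m * W2 X H q r m := by
    rw [← Finset.sum_Ioc_consecutive _ (by omega : X ≤ 2 * X) (by omega : 2 * X ≤ 3 * X), hS,
      ← Finset.sum_add_distrib]
    congr 1
    refine Finset.sum_congr rfl fun m _ => ?_
    ring
  have b1 : |∑ m ∈ Ioc X (2 * X), pl m * (W2 X H q r m - F2 q r H m)| ≤ H * (Lg * (2 * H)) := by
    have h1 : ∑ m ∈ Ioc X (2 * X), pl m * (W2 X H q r m - F2 q r H m) =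
        ∑ m ∈ Ioc X (X + H), pl m * (W2 X H q r m - F2 q r H m) := by
      symm
      apply Finset.sum_subset
      · intro m hm
        rw [mem_Ioc] at hm ⊢
        omega
      · intro m hm hm2
        rw [mem_Ioc] at hm hm2
        have h3 : W2 X H q r m = F2 q r H m := by
          rw [cov2_full H q r m hq0 hr0 (by omega)]
          unfold W2
          rw [show max (X + 1) (m - H) = m - H by omega, show min (2 * X + 1) m = m by omega]
        rw [h3, sub_self, mul_zero]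
    rw [h1]
    refine (Finset.abs_sum_le_sum_abs _ _).trans ?_
    have h2 : ∀ m ∈ Ioc X (X + H), |pl m * (W2 X H q r m - F2 q r H m)| ≤ Lg * (2 * H) := by
      intro m hm
      rw [mem_Ioc] at hm
      rw [abs_mul]
      refine mul_le_mul (cov2_pl X m (by omega)) ?_ (abs_nonneg _) hLg0
      have h3 := cov2_W X H q r m hq0 hr0
      have h4 := cov2_F H q r m hq0 hr0 (by omega)
      calc |W2 X H q r m - F2 q r H m| ≤ |W2 X H q r m| + |F2 q r H m| := abs_sub _ _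
        _ ≤ 2 * H := by linarith
    refine (Finset.sum_le_card_nsmul _ _ _ h2).trans ?_
    rw [Nat.card_Ioc, Nat.add_sub_cancel_left, nsmul_eq_mul]
  have b2 : |∑ m ∈ Ioc (2 * X) (3 * X), pl m * W2 X H q r m| ≤ H * (Lg * H) := by
    have h1 : ∑ m ∈ Ioc (2 * X) (3 * X), pl m * W2 X H q r m =
        ∑ m ∈ Ioc (2 * X) (2 * X + H), pl m * W2 X H q r m := by
      symm
      apply Finset.sum_subset
      · intro m hm
        rw [mem_Ioc] at hm ⊢
        omega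
      · intro m hm hm2
        rw [mem_Ioc] at hm hm2
        rw [cov2_Wz X H q r m (by omega), mul_zero]
    rw [h1]
    refine (Finset.abs_sum_le_sum_abs _ _).trans ?_
    have h2 : ∀ m ∈ Ioc (2 * X) (2 * X + H), |pl m * W2 X H q r m| ≤ Lg * H := by
      intro m hm
      rw [mem_Ioc] at hm
      rw [abs_mul]
      exact mul_le_mul (cov2_pl X m (by omega)) (cov2_W X H q r m hq0 hr0) (abs_nonneg _) hLg0
    refine (Finset.sum_le_card_nsmul _ _ _ h2).trans ?_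
    rw [Nat.card_Ioc, Nat.add_sub_cancel_left, nsmul_eq_mul]
  have b3 : |(H : ℝ) * ∑ x ∈ Ioc X (2 * X), ph H q x * ph H r x| ≤ H * (q * r) := by
    rw [abs_mul, abs_of_nonneg (by linarith : (0 : ℝ) ≤ H)]
    refine mul_le_mul_of_nonneg_left ?_ (by linarith)
    have h1 : ∑ x ∈ Ioc X (2 * X), ph H q x * ph H r x =
        ∑ x ∈ Ico (X + 1) (2 * X + 1), ph H q x * ph H r x := by
      refine Finset.sum_congr ?_ (fun x _ => rfl)
      ext x
      rw [mem_Ioc, mem_Ico]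
      omega
    rw [h1]
    exact cov2_per H q r _ _ hq hr hqr
  rw [e1, e2]
  set D1 := ∑ m ∈ Ioc X (2 * X), pl m * (W2 X H q r m - F2 q r H m)
  set D2 := ∑ m ∈ Ioc (2 * X) (3 * X), pl m * W2 X H q r m
  set D3 := (H : ℝ) * ∑ x ∈ Ioc X (2 * X), ph H q x * ph H r x
  have h7 : |S + D1 + D2 - D3| ≤ |S| + |D1| + |D2| + |D3| := by
    calc |S + D1 + D2 - D3| ≤ |S + D1 + D2| + |D3| := abs_sub _ _
      _ ≤ |S + D1| + |D2| + |D3| := by linarith [abs_add_le (S + D1) D2]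
      _ ≤ _ := by linarith [abs_add_le S D1]
  have h9 : 0 ≤ (H : ℝ) ^ 2 * Lg := by positivity
  refine h7.trans ?_
  nlinarith

end Pool.Agent.H99.GC
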