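import Pool.Agent.H99.GB.Defs

/-!
# [H99 GC DEFS]  MP_31d0eb_nt, theorem GC: both signs of full size for intervals of length `X^θ`, `θ ≤ 1/5`

THEOREM GC. `0 < θ < 1/4`, `s = ±1`: if `s (π(n+H) - π(n) - ∫ dt/log t) ≥ -κ` for all `n` in `(X, 2X]`, then
`κ X + ∑ |error|` is at least `X^(1 + min(θ/2, (1/2-θ)/3) - ε)` (for a suitable `H` in every `[A, (1+c)A]`, `A` about `X^θ`).

IDEA. `E` the error with log weights, `G = ∑_q φ_q` as in `H99/GB`. Sum `(κ + s E)(1 + s a G)^2 ≥ 0`, `a = |Q|^(-1/2)`: the first order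
term is `2 a ∑ E G ≤ - c √|Q| X` for both signs `s`; the second order term `a^2 ∑ E G^2` is small: diagonal `≤ ∑ |E|`, the
products `φ_q φ_r` have small covariance with the primes (characters modulo `q r`, conductor `≤ 4R^2`).
-/

set_option autoImplicit false

namespace Pool.Agent.H99.GC

open Finset Pool.Agent.H67.VS Pool.Agent.H99.GB

/-- the sum over all pairs of nontrivial characters modulo `q` and modulo `r` -/
noncomputable def SD (X q r : ℕ) : ℝ := by
  classical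
  exact ∑ χ ∈ (univ : Finset (DirichletCharacter ℂ q)).filter (fun χ => χ ≠ 1),
    ∑ ψ ∈ (univ : Finset (DirichletCharacter ℂ r)).filter (fun ψ => ψ ≠ 1),
      ‖∑ n ∈ Ioc X (2 * X), ((pl n : ℝ) : ℂ) * (χ (n : ZMod q) * ψ (n : ZMod r))‖

/-- the incomplete character sum -/
noncomputable def Lc (h j : ℕ) {q : ℕ} (χ : DirichletCharacter ℂ q) : ℂ :=
  ∑ i ∈ Icc 1 h, χ (((j : ℕ) : ZMod q) - ((i : ℕ) : ZMod q))

/-- the second order term -/
noncomputable def P2 (X H R : ℕ) : ℝ :=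
  ∑ q ∈ QQ R, ∑ r ∈ QQ R, if q < r then |∑ x ∈ Ioc X (2 * X), ph H q x * ph H r x * ET x H| else 0

end Pool.Agent.H99.GC
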