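import Pool.Agent.H99.GC.Cov2
import Pool.Agent.H99.GC.Pd
import Pool.Agent.H99.GB.Mv
import Pool.Agent.H67.VS.Cov

/-!
# [H99 GC PTW]  the second order term, numbers

PROOF. `cov2` summed over the pairs `q < r` of `QQ R`, `R = ⌊X^ρ⌋`; `L = 1 + log 3X`, `1/((q-1)(r-1)) ≤ 1/R^2`, `pv q ≤ √(2R) L`,
`#pairs ≤ R^2`, `∑ pl ≤ X L` (at most `X` terms): `P2 ≤ H X L + 2 H √(2R) L R^(-1) ∑_q SC + 2 H R^(-1) L^2 ∑ SD + R^2 (10 H^2 L + 4 H R^2)`.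
`mv`: `∑_q SC ≤ X^(1+ρ/2-η')`; `mv2` with `u = ⌊X^w⌋`, `2θ - ρ < w < 1 - θ - 5ρ/2`, `w ≤ 1/3`. Exponents (target `1 + 3ρ/2 - η`): `θ + 1`;
`θ - ρ/2 + 1 + ρ/2 - η'`; `θ - ρ + 1`; `θ - ρ + 2ρ + 1 - w/2`; `θ - ρ + 4ρ + 1/2`; `θ - ρ + 5ρ + w`; `2ρ + 2θ`; `4ρ + θ`.
The hypotheses give `ρ < 1/4`, `θ < 1/4`, and that the interval for `w` is not empty.
-/

set_option autoImplicit false

namespace Pool.Agent.H99.GC

open Finset Pool.Agent.H67.VS Pool.Agent.H99.GB Pool.Agent.H67.VU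

private theorem p2_le (X H R : ℕ) (Lg : ℝ) (hLg : Lg = 1 + Real.log (3 * X)) (hR : 1 ≤ R) (hRX : 2 * R ≤ X)
    (hH : 1 ≤ H) (hHX : H ≤ X) :
    P2 X H R ≤ H * X * Lg + (2 * H * (Real.sqrt (2 * R) * Lg) / R) * ∑ q ∈ QQ R, SC X q +
      (2 * H * Lg ^ 2 / R) * ∑ q ∈ QQ R, ∑ r ∈ QQ R, (if q < r then SD X q r else 0) +
      10 * (H : ℝ) ^ 2 * (R : ℝ) ^ 2 * Lg + 4 * H * (R : ℝ) ^ 4 := by
  classical
  have hR1 : (1 : ℝ) ≤ R := by exact_mod_cast hR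
  have hX1 : (1 : ℝ) ≤ X := by
    have : 1 ≤ X := by omega
    exact_mod_cast this
  have hH0 : (0 : ℝ) ≤ H := Nat.cast_nonneg _
  have hl0 : 0 ≤ Real.log (3 * X) := Real.log_nonneg (by linarith)
  have hLg1 : 1 ≤ Lg := by rw [hLg]; linarith
  have hlL : Real.log (3 * X) ≤ Lg := by rw [hLg]; linarith
  obtain ⟨V, hV⟩ : ∃ V : ℝ, V = Real.sqrt (2 * R) * Lg := ⟨_, rfl⟩
  have hV0 : 0 ≤ V := by rw [hV]; positivity
  have hV2 : V ^ 2 = 2 * R * Lg ^ 2 := by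
    rw [hV, mul_pow, Real.sq_sqrt (by positivity)]
  obtain ⟨Sp, hSp⟩ : ∃ Sp : ℝ, Sp = ∑ n ∈ Ioc X (2 * X), pl n := ⟨_, rfl⟩
  have hSp0 : 0 ≤ Sp := by rw [hSp]; exact sum_nonneg fun n _ => cov_pl_nonneg n
  have hSp1 : Sp ≤ X * Lg := by
    rw [hSp]
    have h1 : ∑ n ∈ Ioc X (2 * X), pl n ≤ ∑ n ∈ Ioc X (2 * X), Lg := by
      refine sum_le_sum fun n hn => ?_
      rw [mem_Ioc] at hn
      have h2 : (n : ℝ) ≤ 3 * X := by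
        have : n ≤ 3 * X := by omega
        exact_mod_cast this
      exact (cov_pl_le h2 (by linarith)).trans hlL
    refine h1.trans (le_of_eq ?_)
    rw [sum_const, Nat.card_Ioc, nsmul_eq_mul]
    congr 2
    omega
  have hSC0 : ∀ q, 0 ≤ SC X q := fun q => by
    unfold SC
    exact sum_nonneg fun _ _ => norm_nonneg _
  have hSD0 : ∀ q r, 0 ≤ SD X q r := fun q r => by
    unfold SD
    exact sum_nonneg fun _ _ => sum_nonneg fun _ _ => norm_nonneg _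
  have hcard : ((QQ R).card : ℝ) ≤ R := by
    have h1 : (QQ R).card ≤ R := by
      unfold QQ
      refine (card_filter_le _ _).trans ?_
      rw [Nat.card_Ioc]
      omega
    exact_mod_cast h1
  have hcard0 : (0 : ℝ) ≤ ((QQ R).card : ℝ) := Nat.cast_nonneg _
  have hpv0 : ∀ q : ℕ, 0 ≤ pv q := fun q => by
    unfold pv
    have := Real.log_natCast_nonneg q
    positivity
  have hq : ∀ q ∈ QQ R, q.Prime ∧ q ≤ X ∧ (R : ℝ) ≤ (q : ℝ) - 1 ∧ (q : ℝ) ≤ 2 * R ∧ pv q ≤ V := by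
    intro q hq
    unfold QQ at hq
    rw [mem_filter, mem_Ioc] at hq
    have h1 : (R : ℝ) + 1 ≤ q := by exact_mod_cast hq.1.1
    have h2 : (q : ℝ) ≤ 2 * R := by exact_mod_cast hq.1.2
    have h3 : (q : ℝ) ≤ X := by
      have : q ≤ X := hq.1.2.trans hRX
      exact_mod_cast this
    refine ⟨hq.2, hq.1.2.trans hRX, by linarith, h2, ?_⟩
    unfold pv
    rw [hV, hLg]
    have h4 : Real.log q ≤ Real.log (3 * X) := Real.log_le_log (by linarith) (by linarith)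
    have h5 := Real.log_natCast_nonneg q
    exact mul_le_mul (Real.sqrt_le_sqrt h2) (by linarith) (by linarith) (Real.sqrt_nonneg _)
  have hterm : ∀ q ∈ QQ R, ∀ r ∈ QQ R,
      (if q < r then |∑ x ∈ Ioc X (2 * X), ph H q x * ph H r x * ET x H| else 0) ≤
      (H : ℝ) / (R : ℝ) ^ 2 * (Sp + V * SC X q + V * SC X r + V ^ 2 * (if q < r then SD X q r else 0)) +
        (10 * (H : ℝ) ^ 2 * Lg + 4 * H * (R : ℝ) ^ 2) := by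
    intro q hqq r hrr
    obtain ⟨q1, q2, q3, q4, q5⟩ := hq q hqq
    obtain ⟨r1, r2, r3, r4, r5⟩ := hq r hrr
    split_ifs with hlt
    · have h1 := cov2 X H q r q1 r1 hlt.ne q2 r2 hH hHX
      rw [← hSp] at h1
      refine h1.trans ?_
      have e1 : (H : ℝ) / (((q : ℝ) - 1) * ((r : ℝ) - 1)) ≤ (H : ℝ) / (R : ℝ) ^ 2 := by
        apply div_le_div_of_nonneg_left hH0 (by positivity)
        rw [pow_two]
        exact mul_le_mul q3 r3 (by linarith) (by linarith)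
      have e2 : Sp + pv q * SC X q + pv r * SC X r + pv q * pv r * SD X q r ≤
          Sp + V * SC X q + V * SC X r + V ^ 2 * SD X q r := by
        have a1 := mul_le_mul_of_nonneg_right q5 (hSC0 q)
        have a2 := mul_le_mul_of_nonneg_right r5 (hSC0 r)
        have a3 : pv q * pv r ≤ V ^ 2 := by
          rw [pow_two]
          exact mul_le_mul q5 r5 (hpv0 r) hV0
        have a4 := mul_le_mul_of_nonneg_right a3 (hSD0 q r)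
        linarith
      have e3 : 0 ≤ Sp + pv q * SC X q + pv r * SC X r + pv q * pv r * SD X q r := by
        have a1 := mul_nonneg (hpv0 q) (hSC0 q)
        have a2 := mul_nonneg (hpv0 r) (hSC0 r)
        have a3 := mul_nonneg (mul_nonneg (hpv0 q) (hpv0 r)) (hSD0 q r)
        linarith
      have e4 := mul_le_mul e1 e2 e3 (by positivity)
      have e5 : 10 * (H : ℝ) ^ 2 * Real.log (3 * X) ≤ 10 * (H : ℝ) ^ 2 * Lg :=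
        mul_le_mul_of_nonneg_left hlL (by positivity)
      have e6 : (H : ℝ) * (q * r) ≤ 4 * H * (R : ℝ) ^ 2 := by
        have a1 : (q : ℝ) * r ≤ (2 * R) * (2 * R) := mul_le_mul q4 r4 (Nat.cast_nonneg _) (by positivity)
        calc (H : ℝ) * (q * r) ≤ H * ((2 * R) * (2 * R)) := mul_le_mul_of_nonneg_left a1 hH0
          _ = _ := by ring
      linarith
    · have a1 := mul_nonneg hV0 (hSC0 q)
      have a2 := mul_nonneg hV0 (hSC0 r)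
      have a3 : 0 ≤ (H : ℝ) / (R : ℝ) ^ 2 := by positivity
      have a4 : 0 ≤ Sp + V * SC X q + V * SC X r + V ^ 2 * (0 : ℝ) := by linarith
      have a5 := mul_nonneg a3 a4
      have a6 : 0 ≤ 10 * (H : ℝ) ^ 2 * Lg + 4 * H * (R : ℝ) ^ 2 := by positivity
      linarith
  have hsum : P2 X H R ≤ ∑ q ∈ QQ R, ∑ r ∈ QQ R, ((H : ℝ) / (R : ℝ) ^ 2 * (Sp + V * SC X q + V * SC X r +
      V ^ 2 * (if q < r then SD X q r else 0)) + (10 * (H : ℝ) ^ 2 * Lg + 4 * H * (R : ℝ) ^ 2)) := by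
    unfold P2
    exact sum_le_sum fun q hqq => sum_le_sum fun r hrr => hterm q hqq r hrr
  refine hsum.trans ?_
  obtain ⟨Ts, hTs⟩ : ∃ Ts : ℝ, Ts = ∑ q ∈ QQ R, SC X q := ⟨_, rfl⟩
  obtain ⟨Td, hTd⟩ : ∃ Td : ℝ, Td = ∑ q ∈ QQ R, ∑ r ∈ QQ R, (if q < r then SD X q r else 0) := ⟨_, rfl⟩
  have hTs0 : 0 ≤ Ts := by rw [hTs]; exact sum_nonneg fun q _ => hSC0 q
  obtain ⟨n, hn⟩ : ∃ n : ℝ, n = ((QQ R).card : ℝ) := ⟨_, rfl⟩
  have hexp : ∑ q ∈ QQ R, ∑ r ∈ QQ R, ((H : ℝ) / (R : ℝ) ^ 2 * (Sp + V * SC X q + V * SC X r +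
      V ^ 2 * (if q < r then SD X q r else 0)) + (10 * (H : ℝ) ^ 2 * Lg + 4 * H * (R : ℝ) ^ 2)) =
      (H : ℝ) / (R : ℝ) ^ 2 * (n ^ 2 * Sp + 2 * n * V * Ts + V ^ 2 * Td) +
        n ^ 2 * (10 * (H : ℝ) ^ 2 * Lg + 4 * H * (R : ℝ) ^ 2) := by
    rw [hTs, hTd, hn]
    simp only [sum_add_distrib, ← mul_sum, sum_const, nsmul_eq_mul]
    ring
  rw [hexp, ← hTs, ← hTd, ← hV]
  rw [← hn] at hcard hcard0
  have hTd0 : 0 ≤ Td := by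
    rw [hTd]
    refine sum_nonneg fun q _ => sum_nonneg fun r _ => ?_
    split_ifs
    · exact hSD0 q r
    · exact le_rfl
  have hn2 : n ^ 2 ≤ (R : ℝ) ^ 2 := pow_le_pow_left₀ hcard0 hcard 2
  have f1 : n ^ 2 * Sp + 2 * n * V * Ts + V ^ 2 * Td ≤ (R : ℝ) ^ 2 * (X * Lg) + 2 * R * V * Ts + V ^ 2 * Td := by
    have a1 : n ^ 2 * Sp ≤ (R : ℝ) ^ 2 * (X * Lg) := mul_le_mul hn2 hSp1 hSp0 (by positivity)
    have a2 : 2 * n * V * Ts ≤ 2 * R * V * Ts := by gcongr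
    linarith
  have f2 : n ^ 2 * (10 * (H : ℝ) ^ 2 * Lg + 4 * H * (R : ℝ) ^ 2) ≤
      (R : ℝ) ^ 2 * (10 * (H : ℝ) ^ 2 * Lg + 4 * H * (R : ℝ) ^ 2) :=
    mul_le_mul_of_nonneg_right hn2 (by positivity)
  have f3 := mul_le_mul_of_nonneg_left f1 (show (0 : ℝ) ≤ (H : ℝ) / (R : ℝ) ^ 2 by positivity)
  have f4 : (H : ℝ) / (R : ℝ) ^ 2 * ((R : ℝ) ^ 2 * (X * Lg) + 2 * R * V * Ts + V ^ 2 * Td) =
      H * X * Lg + (2 * H * V / R) * Ts + (2 * H * Lg ^ 2 / R) * Td := by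
    rw [hV2]
    field_simp
  have f5 : (R : ℝ) ^ 2 * (10 * (H : ℝ) ^ 2 * Lg + 4 * H * (R : ℝ) ^ 2) =
      10 * (H : ℝ) ^ 2 * (R : ℝ) ^ 2 * Lg + 4 * H * (R : ℝ) ^ 4 := by ring
  linarith

theorem ptw (θ ρ K : ℝ) (hρ0 : 0 < ρ) (hρθ : ρ < θ) (h1 : θ < 3 * ρ / 2) (h2 : θ + 3 * ρ / 2 < 1 / 2)
    (hK : 0 < K) : ∃ η : ℝ, 0 < η ∧ ∃ X0 : ℕ, ∀ X : ℕ, X0 ≤ X → ∀ H : ℕ, 1 ≤ H → (H : ℝ) ≤ K * (X : ℝ) ^ θ →
      P2 X H ⌊(X : ℝ) ^ ρ⌋₊ ≤ (X : ℝ) ^ (1 + 3 * ρ / 2 - η) := by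
  obtain ⟨C, hC, hmv2⟩ := mv2
  obtain ⟨η1, hη1, X1, hmv⟩ := mv ρ hρ0 (by linarith)
  obtain ⟨η, hη⟩ : ∃ η : ℝ, η = min (3 * ρ / 2 - θ) (1 / 2 - θ - 3 * ρ / 2) / 4 := ⟨_, rfl⟩
  have hμ1 : 4 * η ≤ 3 * ρ / 2 - θ := by
    have := min_le_left (3 * ρ / 2 - θ) (1 / 2 - θ - 3 * ρ / 2)
    linarith
  have hμ2 : 4 * η ≤ 1 / 2 - θ - 3 * ρ / 2 := by
    have := min_le_right (3 * ρ / 2 - θ) (1 / 2 - θ - 3 * ρ / 2)
    linarith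
  have hη0 : 0 < η := by
    have : 0 < min (3 * ρ / 2 - θ) (1 / 2 - θ - 3 * ρ / 2) := lt_min (by linarith) (by linarith)
    linarith
  obtain ⟨Cc, hCc⟩ : ∃ Cc : ℝ, Cc = 13 * K + 20 * (K * C) + 10 * K ^ 2 := ⟨_, rfl⟩
  have hCc0 : 0 < Cc := by rw [hCc]; positivity
  obtain ⟨X2, hX2⟩ := mv_log Cc η hCc0.le hη0 7
  obtain ⟨X3, hX3⟩ := mv_log (16 + K) (1 / 2) (by positivity) (by norm_num) 0
  obtain ⟨w, hw⟩ : ∃ w : ℝ, w = 2 * θ - ρ + 4 * η := ⟨_, rfl⟩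
  refine ⟨η, hη0, max (max X1 X2) (max X3 1), fun X hX H hH hHK => ?_⟩
  have hXX1 : X1 ≤ X := (le_max_left _ _).trans ((le_max_left _ _).trans hX)
  have hXX2 : X2 ≤ X := (le_max_right _ _).trans ((le_max_left _ _).trans hX)
  have hXX3 : X3 ≤ X := (le_max_left _ _).trans ((le_max_right _ _).trans hX)
  have hXX4 : 1 ≤ X := (le_max_right _ _).trans ((le_max_right _ _).trans hX)
  have hXone : (1 : ℝ) ≤ X := by exact_mod_cast hXX4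
  have hX0 : (0 : ℝ) < X := by linarith
  have hl := hX2 X hXX2
  have hbig := hX3 X hXX3
  rw [pow_zero, mul_one] at hbig
  have hm := hmv X hXX1
  obtain ⟨R, hR⟩ : ∃ R : ℕ, R = ⌊(X : ℝ) ^ ρ⌋₊ := ⟨_, rfl⟩
  rw [← hR] at hm ⊢
  have hXρ1 : (1 : ℝ) ≤ (X : ℝ) ^ ρ := Real.one_le_rpow hXone hρ0.le
  have hRle : (R : ℝ) ≤ (X : ℝ) ^ ρ := by rw [hR]; exact Nat.floor_le (by positivity)
  have hR1 : 1 ≤ R := by rw [hR]; exact Nat.le_floor (by exact_mod_cast hXρ1)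
  have hR1r : (1 : ℝ) ≤ R := by exact_mod_cast hR1
  have hRge : (X : ℝ) ^ ρ / 2 ≤ R := by
    have h3 : (X : ℝ) ^ ρ < (R : ℝ) + 1 := by rw [hR]; exact Nat.lt_floor_add_one _
    linarith
  -- sizes
  have hpw : ∀ a b : ℝ, a ≤ b → (X : ℝ) ^ a ≤ (X : ℝ) ^ b := fun a b hab =>
    Real.rpow_le_rpow_of_exponent_le hXone hab
  have hhalf : (X : ℝ) ^ (1 / 2 : ℝ) * (X : ℝ) ^ (1 / 2 : ℝ) = X := by
    rw [← Real.rpow_add hX0]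
    norm_num
  have hhalf0 : 0 < (X : ℝ) ^ (1 / 2 : ℝ) := by positivity
  have hRX : 2 * R ^ 2 ≤ X := by
    have a1 : (R : ℝ) ^ 2 ≤ (X : ℝ) ^ (1 / 2 : ℝ) := by
      calc (R : ℝ) ^ 2 ≤ ((X : ℝ) ^ ρ) ^ 2 := pow_le_pow_left₀ (Nat.cast_nonneg _) hRle 2
        _ = (X : ℝ) ^ (ρ + ρ) := by rw [pow_two, ← Real.rpow_add hX0]
        _ ≤ _ := hpw _ _ (by linarith)
    have a2 : (2 : ℝ) ≤ (X : ℝ) ^ (1 / 2 : ℝ) := by linarith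
    have a3 : 2 * (R : ℝ) ^ 2 ≤ X := by
      rw [← hhalf]
      exact mul_le_mul a2 a1 (by positivity) hhalf0.le
    exact_mod_cast a3
  have hRX2 : 2 * R ≤ X := by nlinarith
  have hHX : H ≤ X := by
    have a1 : (H : ℝ) ≤ X := by
      rw [← hhalf]
      refine hHK.trans (mul_le_mul (by linarith) (hpw _ _ (by linarith)) (by positivity) hhalf0.le)
    exact_mod_cast a1
  obtain ⟨u, hu⟩ : ∃ u : ℕ, u = ⌊(X : ℝ) ^ w⌋₊ := ⟨_, rfl⟩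
  have hw0 : 0 < w := by rw [hw]; linarith
  have hXw1 : (1 : ℝ) ≤ (X : ℝ) ^ w := Real.one_le_rpow hXone hw0.le
  have hule : (u : ℝ) ≤ (X : ℝ) ^ w := by rw [hu]; exact Nat.floor_le (by positivity)
  have hu1 : 1 ≤ u := by rw [hu]; exact Nat.le_floor (by exact_mod_cast hXw1)
  have huge : (X : ℝ) ^ w / 4 ≤ u := by
    have h3 : (X : ℝ) ^ w < (u : ℝ) + 1 := by rw [hu]; exact Nat.lt_floor_add_one _
    have h4 : (1 : ℝ) ≤ u := by exact_mod_cast hu1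
    linarith
  have hu3 : u ^ 3 ≤ X := by
    have e1 : (u : ℝ) ^ 3 ≤ X := by
      calc (u : ℝ) ^ 3 ≤ ((X : ℝ) ^ w) ^ 3 := pow_le_pow_left₀ (Nat.cast_nonneg _) hule 3
        _ = (X : ℝ) ^ (w * 3) := by
            rw [← Real.rpow_natCast, ← Real.rpow_mul hX0.le]
            norm_num
        _ ≤ (X : ℝ) ^ (1 : ℝ) := hpw _ _ (by rw [hw]; linarith)
        _ = X := Real.rpow_one _
    exact_mod_cast e1
  have hsqu : (X : ℝ) ^ (w / 2) / 2 ≤ Real.sqrt u := by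
    rw [show (X : ℝ) ^ (w / 2) / 2 = Real.sqrt ((X : ℝ) ^ w / 4) by
      rw [Real.sqrt_div (by positivity), Real.sqrt_eq_rpow ((X : ℝ) ^ w), ← Real.rpow_mul hX0.le,
        show Real.sqrt 4 = 2 by
          rw [show (4 : ℝ) = 2 ^ 2 by norm_num]
          exact Real.sqrt_sq (by norm_num)]
      congr 2
      ring]
    exact Real.sqrt_le_sqrt huge
  have hsq0 : 0 < Real.sqrt u := lt_of_lt_of_le (by positivity) hsqu
  have hm2 := hmv2 X R u hu1 hu3 hR1 hRX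
  have hp := p2_le X H R (1 + Real.log (3 * X)) rfl hR1 hRX2 hH hHX
  refine hp.trans ?_
  obtain ⟨Lg, hLg⟩ : ∃ Lg : ℝ, Lg = 1 + Real.log (3 * X) := ⟨_, rfl⟩
  rw [← hLg] at hl hm2 ⊢
  have hl0 : 0 ≤ Real.log (3 * X) := Real.log_nonneg (by linarith)
  have hLg1 : 1 ≤ Lg := by rw [hLg]; linarith
  have hLg0 : 0 < Lg := by linarith
  obtain ⟨Ts, hTs⟩ : ∃ Ts : ℝ, Ts = ∑ q ∈ QQ R, SC X q := ⟨_, rfl⟩
  obtain ⟨Td, hTd⟩ : ∃ Td : ℝ, Td = ∑ q ∈ QQ R, ∑ r ∈ QQ R, (if q < r then SD X q r else 0) := ⟨_, rfl⟩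
  rw [← hTs] at hm ⊢
  rw [← hTd] at hm2 ⊢
  obtain ⟨Y, hY⟩ : ∃ Y : ℝ, Y = (X : ℝ) ^ (1 + 3 * ρ / 2 - 2 * η) := ⟨_, rfl⟩
  have hY0 : 0 < Y := by rw [hY]; positivity
  have hH0 : (0 : ℝ) ≤ H := Nat.cast_nonneg _
  have hL7 : Lg ≤ Lg ^ 7 := by
    calc Lg = Lg ^ 1 := (pow_one _).symm
      _ ≤ Lg ^ 7 := pow_le_pow_right₀ hLg1 (by norm_num)
  have hL70 : 1 ≤ Lg ^ 7 := one_le_pow₀ hLg1
  -- 1 / R
  have hRi : 1 / (R : ℝ) ≤ 2 * (X : ℝ) ^ (-ρ) := by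
    rw [div_le_iff₀ (by linarith), Real.rpow_neg hX0.le]
    have a1 : 0 < (X : ℝ) ^ ρ := by positivity
    calc (1 : ℝ) = 2 * ((X : ℝ) ^ ρ)⁻¹ * ((X : ℝ) ^ ρ / 2) := by field_simp
      _ ≤ 2 * ((X : ℝ) ^ ρ)⁻¹ * R := by gcongr
  have hsq2R : Real.sqrt (2 * R) ≤ 2 * (X : ℝ) ^ (ρ / 2) := by
    rw [Real.sqrt_mul (by norm_num), Real.sqrt_eq_rpow (R : ℝ)]
    have e1 : Real.sqrt 2 ≤ 2 := by
      rw [Real.sqrt_le_left (by norm_num)]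
      norm_num
    have e2 : (R : ℝ) ^ (1 / 2 : ℝ) ≤ (X : ℝ) ^ (ρ / 2) := by
      calc (R : ℝ) ^ (1 / 2 : ℝ) ≤ ((X : ℝ) ^ ρ) ^ (1 / 2 : ℝ) :=
            Real.rpow_le_rpow (Nat.cast_nonneg _) hRle (by norm_num)
        _ = (X : ℝ) ^ (ρ / 2) := by
            rw [← Real.rpow_mul hX0.le]
            congr 1
            ring
    exact mul_le_mul e1 e2 (by positivity) (by norm_num)
  have t1 : H * X * Lg ≤ K * (Lg ^ 7 * Y) := by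
    calc (H : ℝ) * X * Lg ≤ (K * (X : ℝ) ^ θ) * (X : ℝ) ^ (1 : ℝ) * Lg ^ 7 := by
          rw [Real.rpow_one]
          gcongr
      _ = K * (Lg ^ 7 * (X : ℝ) ^ (θ + 1)) := by rw [Real.rpow_add hX0]; ring
      _ ≤ K * (Lg ^ 7 * Y) := by
          rw [hY]
          have := hpw (θ + 1) (1 + 3 * ρ / 2 - 2 * η) (by linarith)
          gcongr
  have hTs0 : 0 ≤ Ts := by
    rw [hTs]
    refine sum_nonneg fun q _ => ?_
    unfold SC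
    exact sum_nonneg fun _ _ => norm_nonneg _
  have t2 : (2 * H * (Real.sqrt (2 * R) * Lg) / R) * Ts ≤ 8 * K * (Lg ^ 7 * Y) := by
    calc (2 * H * (Real.sqrt (2 * R) * Lg) / R) * Ts = 2 * H * (Real.sqrt (2 * R) * Lg) * (1 / R) * Ts := by ring
      _ ≤ 2 * (K * (X : ℝ) ^ θ) * ((2 * (X : ℝ) ^ (ρ / 2)) * Lg ^ 7) * (2 * (X : ℝ) ^ (-ρ)) *
            (X : ℝ) ^ (1 + ρ / 2 - η1) := by gcongr
      _ = 8 * K * (Lg ^ 7 * (X : ℝ) ^ (θ + ρ / 2 + -ρ + (1 + ρ / 2 - η1))) := by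
          rw [Real.rpow_add hX0, Real.rpow_add hX0, Real.rpow_add hX0]
          ring
      _ ≤ 8 * K * (Lg ^ 7 * Y) := by
          rw [hY]
          have := hpw (θ + ρ / 2 + -ρ + (1 + ρ / 2 - η1)) (1 + 3 * ρ / 2 - 2 * η) (by linarith)
          gcongr
  have t3 : (2 * H * Lg ^ 2 / R) * Td ≤ 20 * (K * C) * (Lg ^ 7 * Y) := by
    have b1 : (X : ℝ) ^ (θ - ρ) * X ≤ Y := by
      calc (X : ℝ) ^ (θ - ρ) * X = (X : ℝ) ^ (θ - ρ) * (X : ℝ) ^ (1 : ℝ) := by rw [Real.rpow_one]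
        _ = (X : ℝ) ^ (θ - ρ + 1) := by rw [← Real.rpow_add hX0]
        _ ≤ Y := by rw [hY]; exact hpw _ _ (by linarith)
    have b2 : (X : ℝ) ^ (θ - ρ) * ((R : ℝ) ^ 2 * X / Real.sqrt u) ≤ 2 * Y := by
      rw [mul_div_assoc', div_le_iff₀ hsq0]
      calc (X : ℝ) ^ (θ - ρ) * ((R : ℝ) ^ 2 * X) ≤ (X : ℝ) ^ (θ - ρ) * (((X : ℝ) ^ ρ) ^ 2 * (X : ℝ) ^ (1 : ℝ)) := by
            rw [Real.rpow_one]
            gcongr
        _ = (X : ℝ) ^ (θ - ρ + (ρ + ρ) + 1) := by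
            rw [Real.rpow_add hX0, Real.rpow_add hX0, Real.rpow_add hX0 ρ ρ]
            ring
        _ ≤ (X : ℝ) ^ ((1 + 3 * ρ / 2 - 2 * η) + w / 2) := hpw _ _ (by rw [hw]; linarith)
        _ = 2 * Y * ((X : ℝ) ^ (w / 2) / 2) := by
            rw [Real.rpow_add hX0, hY]
            ring
        _ ≤ 2 * Y * Real.sqrt u := by gcongr
    have b3 : (X : ℝ) ^ (θ - ρ) * ((R : ℝ) ^ 4 * Real.sqrt X) ≤ Y := by
      calc (X : ℝ) ^ (θ - ρ) * ((R : ℝ) ^ 4 * Real.sqrt X) ≤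
            (X : ℝ) ^ (θ - ρ) * (((X : ℝ) ^ ρ) ^ 4 * (X : ℝ) ^ (1 / 2 : ℝ)) := by
            rw [Real.sqrt_eq_rpow (X : ℝ)]
            gcongr
        _ = (X : ℝ) ^ (θ - ρ + (ρ + ρ + ρ + ρ) + 1 / 2) := by
            rw [Real.rpow_add hX0, Real.rpow_add hX0, Real.rpow_add hX0 (ρ + ρ + ρ) ρ,
              Real.rpow_add hX0 (ρ + ρ) ρ, Real.rpow_add hX0 ρ ρ]
            ring
        _ ≤ Y := by rw [hY]; exact hpw _ _ (by linarith)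
    have b4 : (X : ℝ) ^ (θ - ρ) * ((R : ℝ) ^ 5 * u) ≤ Y := by
      calc (X : ℝ) ^ (θ - ρ) * ((R : ℝ) ^ 5 * u) ≤ (X : ℝ) ^ (θ - ρ) * (((X : ℝ) ^ ρ) ^ 5 * (X : ℝ) ^ w) := by
            gcongr
        _ = (X : ℝ) ^ (θ - ρ + (ρ + ρ + ρ + ρ + ρ) + w) := by
            rw [Real.rpow_add hX0, Real.rpow_add hX0, Real.rpow_add hX0 (ρ + ρ + ρ + ρ) ρ,
              Real.rpow_add hX0 (ρ + ρ + ρ) ρ, Real.rpow_add hX0 (ρ + ρ) ρ, Real.rpow_add hX0 ρ ρ]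
            ring
        _ ≤ Y := by rw [hY]; exact hpw _ _ (by rw [hw]; linarith)
    have b5 : (X : ℝ) ^ (θ - ρ) * ((X : ℝ) + (R : ℝ) ^ 2 * X / Real.sqrt u + (R : ℝ) ^ 4 * Real.sqrt X +
        (R : ℝ) ^ 5 * u) ≤ 5 * Y := by
      rw [mul_add, mul_add, mul_add]
      linarith
    have b6 : 0 ≤ (X : ℝ) + (R : ℝ) ^ 2 * X / Real.sqrt u + (R : ℝ) ^ 4 * Real.sqrt X + (R : ℝ) ^ 5 * u := by
      positivity
    have b7 : 0 ≤ C * Lg ^ 5 * ((X : ℝ) + (R : ℝ) ^ 2 * X / Real.sqrt u + (R : ℝ) ^ 4 * Real.sqrt X +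
        (R : ℝ) ^ 5 * u) := by positivity
    calc (2 * H * Lg ^ 2 / R) * Td ≤ (2 * H * Lg ^ 2 / R) * (C * Lg ^ 5 * ((X : ℝ) +
            (R : ℝ) ^ 2 * X / Real.sqrt u + (R : ℝ) ^ 4 * Real.sqrt X + (R : ℝ) ^ 5 * u)) :=
          mul_le_mul_of_nonneg_left hm2 (by positivity)
      _ = 2 * H * (1 / R) * (Lg ^ 2 * (C * Lg ^ 5 * ((X : ℝ) +
            (R : ℝ) ^ 2 * X / Real.sqrt u + (R : ℝ) ^ 4 * Real.sqrt X + (R : ℝ) ^ 5 * u))) := by ring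
      _ ≤ 2 * (K * (X : ℝ) ^ θ) * (2 * (X : ℝ) ^ (-ρ)) * (Lg ^ 2 * (C * Lg ^ 5 * ((X : ℝ) +
            (R : ℝ) ^ 2 * X / Real.sqrt u + (R : ℝ) ^ 4 * Real.sqrt X + (R : ℝ) ^ 5 * u))) := by gcongr
      _ = 4 * (K * C) * Lg ^ 7 * ((X : ℝ) ^ (θ - ρ) * ((X : ℝ) +
            (R : ℝ) ^ 2 * X / Real.sqrt u + (R : ℝ) ^ 4 * Real.sqrt X + (R : ℝ) ^ 5 * u)) := by
          rw [sub_eq_add_neg, Real.rpow_add hX0]
          ring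
      _ ≤ 4 * (K * C) * Lg ^ 7 * (5 * Y) := by gcongr
      _ = _ := by ring
  have t4 : 10 * (H : ℝ) ^ 2 * (R : ℝ) ^ 2 * Lg ≤ 10 * K ^ 2 * (Lg ^ 7 * Y) := by
    calc 10 * (H : ℝ) ^ 2 * (R : ℝ) ^ 2 * Lg ≤ 10 * (K * (X : ℝ) ^ θ) ^ 2 * ((X : ℝ) ^ ρ) ^ 2 * Lg ^ 7 := by
          gcongr
      _ = 10 * K ^ 2 * (Lg ^ 7 * (X : ℝ) ^ (θ + θ + (ρ + ρ))) := by
          rw [Real.rpow_add hX0, Real.rpow_add hX0 θ θ, Real.rpow_add hX0 ρ ρ]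
          ring
      _ ≤ 10 * K ^ 2 * (Lg ^ 7 * Y) := by
          rw [hY]
          have := hpw (θ + θ + (ρ + ρ)) (1 + 3 * ρ / 2 - 2 * η) (by linarith)
          gcongr
  have t5 : 4 * H * (R : ℝ) ^ 4 ≤ 4 * K * (Lg ^ 7 * Y) := by
    calc 4 * H * (R : ℝ) ^ 4 ≤ 4 * (K * (X : ℝ) ^ θ) * ((X : ℝ) ^ ρ) ^ 4 := by gcongr
      _ = 4 * K * (1 * (X : ℝ) ^ (θ + (ρ + ρ + ρ + ρ))) := by
          rw [Real.rpow_add hX0, Real.rpow_add hX0 (ρ + ρ + ρ) ρ,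
              Real.rpow_add hX0 (ρ + ρ) ρ, Real.rpow_add hX0 ρ ρ]
          ring
      _ ≤ 4 * K * (Lg ^ 7 * Y) := by
          rw [hY]
          have := hpw (θ + (ρ + ρ + ρ + ρ)) (1 + 3 * ρ / 2 - 2 * η) (by linarith)
          gcongr
  have tot : H * X * Lg + (2 * H * (Real.sqrt (2 * R) * Lg) / R) * Ts + (2 * H * Lg ^ 2 / R) * Td +
      10 * (H : ℝ) ^ 2 * (R : ℝ) ^ 2 * Lg + 4 * H * (R : ℝ) ^ 4 ≤ Cc * Lg ^ 7 * Y := by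
    have e : Cc * Lg ^ 7 * Y = K * (Lg ^ 7 * Y) + 8 * K * (Lg ^ 7 * Y) + 20 * (K * C) * (Lg ^ 7 * Y) +
        10 * K ^ 2 * (Lg ^ 7 * Y) + 4 * K * (Lg ^ 7 * Y) := by rw [hCc]; ring
    rw [e]
    linarith
  refine tot.trans ?_
  calc Cc * Lg ^ 7 * Y ≤ (X : ℝ) ^ η * Y := mul_le_mul_of_nonneg_right hl hY0.le
    _ = (X : ℝ) ^ (1 + 3 * ρ / 2 - η) := by
        rw [hY, ← Real.rpow_add hX0]
        congr 1
        ring

end Pool.Agent.H99.GC
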