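import Pool.Agent.H99.GC.Defs
import Pool.Agent.H67.VU.Pv

/-!
# [H99 GC PVL]  Polya-Vinogradov for `Lc`

PROOF. `∑_{i ≤ h} χ(j - i) = ∑_{k ∈ [j+q-h, j+q-1]} χ(k)`, `pv_bound` (`χ ≠ 1` modulo a prime is primitive).
-/

set_option autoImplicit false

namespace Pool.Agent.H99.GC

open Finset Pool.Agent.H67.VS Pool.Agent.H99.GB Pool.Agent.H67.VU

private lemma pvl_prim {q : ℕ} (hq : q.Prime) (χ : DirichletCharacter ℂ q) (hχ : χ ≠ 1) :
    χ.IsPrimitive := by
  haveI : NeZero q := ⟨hq.ne_zero⟩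
  rw [DirichletCharacter.isPrimitive_def]
  rcases (Nat.dvd_prime hq).1 (DirichletCharacter.conductor_dvd_level χ) with h | h
  · exact absurd ((DirichletCharacter.eq_one_iff_conductor_eq_one).2 h) hχ
  · exact h

theorem lc_bd {q : ℕ} (hq : q.Prime) (χ : DirichletCharacter ℂ q) (hχ : χ ≠ 1) (h j : ℕ) (hh : h < q) :
    ‖Lc h j χ‖ ≤ pv q := by
  haveI : NeZero q := ⟨hq.ne_zero⟩
  have h1 : Lc h j χ = ∑ k ∈ Ioc (j + q - h - 1) (j + q - 1), χ (k : ZMod q) := by
    unfold Lc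
    refine Finset.sum_bij' (fun i _ => j + q - i) (fun k _ => j + q - k) ?_ ?_ ?_ ?_ ?_
    · intro i hi
      rw [mem_Icc] at hi
      rw [mem_Ioc]
      omega
    · intro k hk
      rw [mem_Ioc] at hk
      rw [mem_Icc]
      omega
    · intro i hi
      rw [mem_Icc] at hi
      omega
    · intro k hk
      rw [mem_Ioc] at hk
      omega
    · intro i hi
      rw [mem_Icc] at hi
      rw [Nat.cast_sub (by omega), Nat.cast_add, ZMod.natCast_self, add_zero]
  rw [h1]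
  exact pv_bound χ (pvl_prim hq χ hχ) hq.two_le _ _

end Pool.Agent.H99.GC
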